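import Pool.Agent.V8H99.NF.Win

/-! # Vectors with small overlaps in every dimension -/

set_option autoImplicit false

namespace Pool.Agent.V8H99.NF

open Finset Complex Pool.Agent.R503.SIC
open scoped ComplexConjugate

variable {d P : ℕ} [NeZero d] [NeZero P]

/-- the offsets of the two windows -/
noncomputable def off (i : Bool) : ℝ := if i then 1 / 2 else 0

/-- the coefficients of the quadratic terms of the two phases -/
def kk (d : ℕ) (i : Bool) : ℤ := if i then 7 * d else 0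

/-- one of the two pieces -/
noncomputable def Fi (d P : ℕ) [NeZero P] (i : Bool) (n : ℤ) : ℂ :=
  ((W ((n : ℝ) / d - off i) : ℝ) : ℂ) * e ((n ^ 3 + kk d i * n ^ 2 : ℤ) : ZMod P)

/-- the function on the integers -/
noncomputable def FF (d P : ℕ) [NeZero P] (n : ℤ) : ℂ := Fi d P true n + Fi d P false n

/-- the vector -/
noncomputable def vec (d P : ℕ) [NeZero d] [NeZero P] (x : ZMod d) : ℂ :=
  FF d P x.val + FF d P (x.val + d)

theorem off_nonneg (i : Bool) : 0 ≤ off i := by unfold off; split_ifs <;> norm_num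

theorem off_le (i : Bool) : off i ≤ 1 := by unfold off; split_ifs <;> norm_num

omit [NeZero d] in
theorem Fi_neg (hd : 1 ≤ d) (i : Bool) {n : ℤ} (hn : n ≤ 0) : Fi d P i n = 0 := by
  unfold Fi
  have hd0 : (0 : ℝ) < d := by exact_mod_cast hd
  have : (n : ℝ) / d - off i ≤ 0 := by
    have h1 : (n : ℝ) ≤ 0 := by exact_mod_cast hn
    have h2 : (n : ℝ) / d ≤ 0 := div_nonpos_of_nonpos_of_nonneg h1 hd0.le
    have := off_nonneg i
    linarith
  rw [W_zero_of_le this, Complex.ofReal_zero, zero_mul]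

omit [NeZero d] in
theorem Fi_big (hd : 1 ≤ d) (i : Bool) {n : ℤ} (hn : 2 * d ≤ n) : Fi d P i n = 0 := by
  unfold Fi
  have hd0 : (0 : ℝ) < d := by exact_mod_cast hd
  have : 1 ≤ (n : ℝ) / d - off i := by
    have h1 : 2 * (d : ℝ) ≤ n := by exact_mod_cast hn
    have h2 : 2 ≤ (n : ℝ) / d := by rw [le_div_iff₀ hd0]; exact h1
    have := off_le i
    linarith
  rw [W_zero_of_ge this, Complex.ofReal_zero, zero_mul]

omit [NeZero d] in
theorem FF_neg (hd : 1 ≤ d) {n : ℤ} (hn : n ≤ 0) : FF d P n = 0 := by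
  unfold FF; rw [Fi_neg hd _ hn, Fi_neg hd _ hn, add_zero]

omit [NeZero d] in
theorem FF_big (hd : 1 ≤ d) {n : ℤ} (hn : 2 * d ≤ n) : FF d P n = 0 := by
  unfold FF; rw [Fi_big hd _ hn, Fi_big hd _ hn, add_zero]

theorem vec_cast (hd : 1 ≤ d) (m : ℕ) (hm : m < 3 * d) : vec d P (m : ZMod d) =
    FF d P (m + (-2) * d) + FF d P (m + (-1) * d) + FF d P (m + 0 * d) + FF d P (m + 1 * d) := by
  unfold vec
  have hv : ((m : ZMod d)).val = m % d := ZMod.val_natCast d m
  have hr : m % d < d := Nat.mod_lt _ (by omega)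
  obtain ⟨r, q, hrd, hq, hmm⟩ : ∃ r q : ℕ, r = m % d ∧ q < 3 ∧ m = r + q * d := by
    refine ⟨m % d, m / d, rfl, ?_, ?_⟩
    · rw [Nat.div_lt_iff_lt_mul (by omega)]; omega
    · have := Nat.mod_add_div m d
      rw [mul_comm] at this
      omega
  rw [hv, ← hrd]
  rw [← hrd] at hr
  have hrz : (r : ℤ) < d := by exact_mod_cast hr
  have hr0 : (0 : ℤ) ≤ r := by positivity
  have hdz : (1 : ℤ) ≤ d := by exact_mod_cast hd
  rw [hmm]
  interval_cases q
  · have e1 : FF d P (((r + 0 * d : ℕ) : ℤ) + (-2) * d) = 0 := FF_neg hd (by push_cast; linarith)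
    have e2 : FF d P (((r + 0 * d : ℕ) : ℤ) + (-1) * d) = 0 := FF_neg hd (by push_cast; linarith)
    rw [e1, e2]
    have e3 : ((r + 0 * d : ℕ) : ℤ) + 0 * d = r := by push_cast; ring
    have e4 : ((r + 0 * d : ℕ) : ℤ) + 1 * d = r + d := by push_cast; ring
    rw [e3, e4]; ring
  · have e1 : FF d P (((r + 1 * d : ℕ) : ℤ) + (-2) * d) = 0 := FF_neg hd (by push_cast; linarith)
    have e2 : FF d P (((r + 1 * d : ℕ) : ℤ) + 1 * d) = 0 := FF_big hd (by push_cast; linarith)
    rw [e1, e2]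
    have e3 : ((r + 1 * d : ℕ) : ℤ) + (-1) * d = r := by push_cast; ring
    have e4 : ((r + 1 * d : ℕ) : ℤ) + 0 * d = r + d := by push_cast; ring
    rw [e3, e4]; ring
  · have e1 : FF d P (((r + 2 * d : ℕ) : ℤ) + 0 * d) = 0 := FF_big hd (by push_cast; linarith)
    have e2 : FF d P (((r + 2 * d : ℕ) : ℤ) + 1 * d) = 0 := FF_big hd (by push_cast; linarith)
    rw [e1, e2]
    have e3 : ((r + 2 * d : ℕ) : ℤ) + (-2) * d = r := by push_cast; ring
    have e4 : ((r + 2 * d : ℕ) : ℤ) + (-1) * d = r + d := by push_cast; ring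
    rw [e3, e4]; ring

omit [NeZero P] in
theorem sum_vec (g : ZMod d → ℂ) (F : ℤ → ℂ) :
    ∑ x : ZMod d, g x * (F x.val + F (x.val + d)) = ∑ n ∈ range (2 * d), g (n : ZMod d) * F n := by
  have h1 : ∀ G : ℕ → ℂ, ∑ x : ZMod d, G x.val = ∑ n ∈ range d, G n := by
    intro G
    refine sum_bij (fun x _ => x.val) ?_ ?_ ?_ ?_
    · intro x _; exact mem_range.2 (ZMod.val_lt x)
    · intro x _ y _ h; exact ZMod.val_injective d h
    · intro n hn
      exact ⟨(n : ZMod d), mem_univ _, ZMod.val_natCast_of_lt (mem_range.1 hn)⟩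
    · intro x _; rfl
  rw [two_mul, sum_range_add, ← h1 fun n => g (n : ZMod d) * F n,
    ← h1 fun n => g ((d + n : ℕ) : ZMod d) * F ((d + n : ℕ) : ℤ), ← sum_add_distrib]
  refine sum_congr rfl fun x _ => ?_
  rw [ZMod.natCast_zmod_val, mul_add]
  congr 2
  · push_cast
    rw [ZMod.natCast_self, zero_add, ZMod.natCast_zmod_val]
  · congr 1
    push_cast
    ring

/-- the shifted correlations -/
noncomputable def TT (d P : ℕ) [NeZero d] [NeZero P] (b : ZMod d) (i k : Bool) (s : ℤ) : ℂ :=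
  ∑ n ∈ range (2 * d), conj (Fi d P i (n + s)) * (e (b * (n : ZMod d)) * Fi d P k n)

theorem ov_vec (hd : 1 ≤ d) (a b : ZMod d) : ov (vec d P) a b =
    ∑ s ∈ ({-2, -1, 0, 1} : Finset ℤ), ∑ i : Bool, ∑ k : Bool,
      TT d P b i k (a.val + s * d) := by
  have h1 : ov (vec d P) a b = ∑ n ∈ range (2 * d),
      (conj (vec d P ((n : ZMod d) + a)) * e (b * (n : ZMod d))) * FF d P n := by
    rw [← sum_vec (fun x => conj (vec d P (x + a)) * e (b * x)) (FF d P)]
    unfold ov
    refine sum_congr rfl fun x _ => ?_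
    rw [mul_assoc]
    rfl
  rw [h1]
  have h2 : ∀ n ∈ range (2 * d), (conj (vec d P ((n : ZMod d) + a)) * e (b * (n : ZMod d))) * FF d P n =
      ∑ s ∈ ({-2, -1, 0, 1} : Finset ℤ), ∑ i : Bool, ∑ k : Bool,
        conj (Fi d P i (n + (a.val + s * d))) * (e (b * (n : ZMod d)) * Fi d P k n) := by
    intro n hn
    rw [mem_range] at hn
    have h3 : ((n : ZMod d) + a) = ((n + a.val : ℕ) : ZMod d) := by
      push_cast
      rw [ZMod.natCast_zmod_val]
    have h4 : n + a.val < 3 * d := by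
      have := ZMod.val_lt a
      omega
    rw [h3, vec_cast hd _ h4]
    have e1 : ∀ s : ℤ, ((n + a.val : ℕ) : ℤ) + s * d = n + (a.val + s * d) := by
      intro s; push_cast; ring
    rw [e1, e1, e1, e1]
    rw [sum_insert (by decide), sum_insert (by decide), sum_insert (by decide), sum_singleton]
    simp only [Fintype.sum_bool, map_add, FF]
    ring
  rw [sum_congr rfl h2, sum_comm]
  refine sum_congr rfl fun s _ => ?_
  rw [sum_comm]
  refine sum_congr rfl fun i _ => ?_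
  rw [sum_comm]
  rfl

/-- the generic terms are small -/
theorem TT_le (hd : 1 ≤ d) (hP : P.Prime) (hP1 : 16 * d < P) (hP2 : P ≤ 32 * d) (b : ZMod d)
    (i k : Bool) (s : ℤ) (hs : |s| ≤ 2 * d) (hne : s ≠ 0 ∨ i ≠ k) :
    ‖TT d P b i k s‖ ≤ 47 * Real.sqrt P := by
  have hd0 : (0 : ℝ) < d := by exact_mod_cast hd
  obtain ⟨A, hA⟩ : ∃ A : ℤ, A = -3 * s - kk d i + kk d k := ⟨_, rfl⟩
  have hA0 : (A : ZMod P) ≠ 0 := by
    intro h
    rw [ZMod.intCast_zmod_eq_zero_iff_dvd] at h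
    have hdz : (1 : ℤ) ≤ d := by exact_mod_cast hd
    have hPz : 16 * (d : ℤ) < P := by exact_mod_cast hP1
    have hs' := abs_le.1 hs
    have hAne : A ≠ 0 := by
      rw [hA]
      unfold kk
      cases i <;> cases k <;> simp <;> first | omega | (rcases hne with h | h <;> first | omega | exact absurd rfl h)
    have hAabs : |A| < P := by
      rw [hA, abs_lt]
      unfold kk
      cases i <;> cases k <;> simp <;> constructor <;> omega
    exact hAne (Int.eq_zero_of_abs_lt_dvd h hAabs)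
  obtain ⟨B, hB⟩ : ∃ B : ℤ, B = -3 * s ^ 2 - 2 * kk d i * s := ⟨_, rfl⟩
  have h1 := piece (d := d) (P := P) hd hP hP1 hP2 hA0 (B : ZMod P) s (off i) (off k)
    (off_nonneg k) (off_le k) ((b.val : ℝ) / d)
  have h2 : TT d P b i k s = e ((-(s ^ 3 + kk d i * s ^ 2) : ℤ) : ZMod P) *
      ∑ n ∈ range (2 * d), ((W (((n : ℝ) + s) / d - off i) * W ((n : ℝ) / d - off k) : ℝ) : ℂ) *
      (e ((A : ZMod P) * (n : ZMod P) ^ 2 + (B : ZMod P) * (n : ZMod P)) *
        Complex.exp (Complex.I * ((2 * Real.pi * ((b.val : ℝ) / d) * n : ℝ) : ℂ))) := by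
    unfold TT
    rw [mul_sum]
    refine sum_congr rfl fun n _ => ?_
    unfold Fi
    rw [map_mul, Complex.conj_ofReal, conj_e]
    have e1 : e (b * (n : ZMod d)) =
        Complex.exp (Complex.I * ((2 * Real.pi * ((b.val : ℝ) / d) * n : ℝ) : ℂ)) := by
      have h3 : b * (n : ZMod d) = (((b.val * n : ℕ) : ℤ) : ZMod d) := by
        push_cast
        rw [ZMod.natCast_zmod_val]
      unfold e
      rw [h3, ZMod.stdAddChar_coe]
      congr 1
      push_cast
      ring
    have e2 : e (-((((n : ℤ) + s) ^ 3 + kk d i * ((n : ℤ) + s) ^ 2 : ℤ) : ZMod P)) *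
        e ((((n : ℤ) ^ 3 + kk d k * (n : ℤ) ^ 2 : ℤ) : ZMod P)) =
        e ((-(s ^ 3 + kk d i * s ^ 2) : ℤ) : ZMod P) *
          e ((A : ZMod P) * (n : ZMod P) ^ 2 + (B : ZMod P) * (n : ZMod P)) := by
      rw [← e_add, ← e_add]
      congr 1
      rw [hA, hB]
      push_cast
      ring
    rw [← e1]
    push_cast at e2 ⊢
    linear_combination ((W (((n : ℝ) + s) / d - off i) : ℝ) : ℂ) * ((W ((n : ℝ) / d - off k) : ℝ) : ℂ) *
      e (b * (n : ZMod d)) * e2
  rw [h2, norm_mul_e]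
  exact h1

theorem partition {t : ℝ} (h0 : 0 ≤ t) (h1 : t < 1) :
    W (t - 1 / 2) ^ 2 + W (t - 0) ^ 2 + (W (t + 1 - 1 / 2) ^ 2 + W (t + 1 - 0) ^ 2) = 1 := by
  rw [sub_zero, sub_zero, W_mid h0 h1.le, W_zero_of_ge (show 1 ≤ t + 1 by linarith)]
  have hsc := Real.sin_sq_add_cos_sq (Real.pi * t)
  rcases le_total t (1 / 2) with h | h
  · rw [W_zero_of_le (show t - 1 / 2 ≤ 0 by linarith),
      W_mid (show 0 ≤ t + 1 - 1 / 2 by linarith) (show t + 1 - 1 / 2 ≤ 1 by linarith)]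
    have : Real.pi * (t + 1 - 1 / 2) = Real.pi * t + Real.pi / 2 := by ring
    rw [this, Real.sin_add_pi_div_two]
    linarith
  · rw [W_zero_of_ge (show 1 ≤ t + 1 - 1 / 2 by linarith),
      W_mid (show 0 ≤ t - 1 / 2 by linarith) (show t - 1 / 2 ≤ 1 by linarith)]
    have : Real.pi * (t - 1 / 2) = Real.pi * t - Real.pi / 2 := by ring
    rw [this, Real.sin_sub_pi_div_two]
    linarith

/-- the diagonal terms -/
theorem TT_diag (hd : 1 ≤ d) (b : ZMod d) :
    TT d P b true true 0 + TT d P b false false 0 = if b = 0 then (d : ℂ) else 0 := by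
  have hd0 : (0 : ℝ) < d := by exact_mod_cast hd
  have h1 : ∀ i : Bool, TT d P b i i 0 =
      ∑ n ∈ range (2 * d), e (b * (n : ZMod d)) * ((W (((n : ℤ) : ℝ) / d - off i) ^ 2 : ℝ) : ℂ) := by
    intro i
    unfold TT
    refine sum_congr rfl fun n _ => ?_
    rw [add_zero]
    unfold Fi
    rw [map_mul, Complex.conj_ofReal, conj_e]
    have h2 := e_mul_neg ((((n : ℤ) ^ 3 + kk d i * (n : ℤ) ^ 2 : ℤ) : ZMod P))
    push_cast at h2 ⊢
    linear_combination ((W ((n : ℝ) / d - off i) : ℝ) : ℂ) ^ 2 * e (b * (n : ZMod d)) * h2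
  rw [h1, h1, ← sum_add_distrib]
  have h3 := sum_vec (fun x : ZMod d => e (b * x))
    (fun n : ℤ => ((W ((n : ℝ) / d - off true) ^ 2 + W ((n : ℝ) / d - off false) ^ 2 : ℝ) : ℂ))
  have h4 : ∑ n ∈ range (2 * d), (e (b * (n : ZMod d)) * ((W (((n : ℤ) : ℝ) / d - off true) ^ 2 : ℝ) : ℂ) +
      e (b * (n : ZMod d)) * ((W (((n : ℤ) : ℝ) / d - off false) ^ 2 : ℝ) : ℂ)) =
      ∑ n ∈ range (2 * d), e (b * (n : ZMod d)) *
        ((W (((n : ℤ) : ℝ) / d - off true) ^ 2 + W (((n : ℤ) : ℝ) / d - off false) ^ 2 : ℝ) : ℂ) := by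
    refine sum_congr rfl fun n _ => ?_
    push_cast
    ring
  rw [h4, ← h3]
  have h5 : ∀ x : ZMod d, e (b * x) *
      (((W (((x.val : ℤ) : ℝ) / d - off true) ^ 2 + W (((x.val : ℤ) : ℝ) / d - off false) ^ 2 : ℝ) : ℂ) +
        ((W ((((x.val : ℤ) + d : ℤ) : ℝ) / d - off true) ^ 2 +
          W ((((x.val : ℤ) + d : ℤ) : ℝ) / d - off false) ^ 2 : ℝ) : ℂ)) = e (x * b) := by
    intro x
    have hx : (x.val : ℝ) < d := by exact_mod_cast ZMod.val_lt x
    have h6 := partition (t := (x.val : ℝ) / d) (by positivity) (by rw [div_lt_one hd0]; exact hx)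
    have h7 : (((x.val : ℤ) + d : ℤ) : ℝ) / d = (x.val : ℝ) / d + 1 := by
      push_cast
      field_simp
    have h8 : off true = 1 / 2 := rfl
    have h9 : off false = 0 := rfl
    rw [h7, h8, h9, ← Complex.ofReal_add]
    rw [show (((x.val : ℤ) : ℝ)) = (x.val : ℝ) by push_cast; rfl, h6, Complex.ofReal_one, mul_one,
      mul_comm]
  rw [sum_congr rfl fun x _ => h5 x, sum_e]

/-- **the overlaps of the vector** -/
theorem vec_ov (hd : 1 ≤ d) (hP : P.Prime) (hP1 : 16 * d < P) (hP2 : P ≤ 32 * d) (a b : ZMod d) :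
    ‖ov (vec d P) a b - if a = 0 ∧ b = 0 then (d : ℂ) else 0‖ ≤ 752 * Real.sqrt P := by
  have hdz : (1 : ℤ) ≤ d := by exact_mod_cast hd
  have hav : (a.val : ℤ) < d := by exact_mod_cast ZMod.val_lt a
  have hav0 : (0 : ℤ) ≤ a.val := by positivity
  have hsq : 0 ≤ Real.sqrt P := Real.sqrt_nonneg _
  -- the blocks with nonzero shift
  have hblock : ∀ s : ℤ, |s| ≤ 2 * d → s ≠ 0 →
      ‖∑ i : Bool, ∑ k : Bool, TT d P b i k s‖ ≤ 188 * Real.sqrt P := by
    intro s hs hs0
    have h1 := TT_le hd hP hP1 hP2 b true true s hs (Or.inl hs0)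
    have h2 := TT_le hd hP hP1 hP2 b true false s hs (Or.inl hs0)
    have h3 := TT_le hd hP hP1 hP2 b false true s hs (Or.inl hs0)
    have h4 := TT_le hd hP hP1 hP2 b false false s hs (Or.inl hs0)
    simp only [Fintype.sum_bool]
    have t1 := norm_add_le (TT d P b true true s + TT d P b true false s)
      (TT d P b false true s + TT d P b false false s)
    have t2 := norm_add_le (TT d P b true true s) (TT d P b true false s)
    have t3 := norm_add_le (TT d P b false true s) (TT d P b false false s)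
    linarith
  rw [ov_vec hd, sum_insert (by decide), sum_insert (by decide), sum_insert (by decide),
    sum_singleton]
  have b1 := hblock (a.val + (-2) * d) (by rw [abs_le]; constructor <;> linarith) (by
    intro h; linarith)
  have b2 := hblock (a.val + (-1) * d) (by rw [abs_le]; constructor <;> linarith) (by
    intro h; linarith)
  have b4 := hblock (a.val + 1 * d) (by rw [abs_le]; constructor <;> linarith) (by
    intro h; linarith)
  have b3 : ‖(∑ i : Bool, ∑ k : Bool, TT d P b i k (a.val + 0 * d)) -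
      if a = 0 ∧ b = 0 then (d : ℂ) else 0‖ ≤ 188 * Real.sqrt P := by
    by_cases ha : a = 0
    · rw [ha, ZMod.val_zero]
      simp only [Nat.cast_zero, zero_mul, add_zero, true_and, Fintype.sum_bool]
      have h1 := TT_diag (P := P) hd b
      have h2 := TT_le hd hP hP1 hP2 b true false 0 (by rw [abs_zero]; linarith)
        (Or.inr (by decide))
      have h3 := TT_le hd hP hP1 hP2 b false true 0 (by rw [abs_zero]; linarith)
        (Or.inr (by decide))
      have h4 : TT d P b true true 0 + TT d P b true false 0 +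
          (TT d P b false true 0 + TT d P b false false 0) - (if b = 0 then (d : ℂ) else 0) =
          TT d P b true false 0 + TT d P b false true 0 := by
        rw [← h1]; ring
      rw [h4]
      have t := norm_add_le (TT d P b true false 0) (TT d P b false true 0)
      linarith
    · rw [if_neg (fun h => ha h.1), sub_zero]
      apply hblock
      · rw [abs_le]; constructor <;> linarith
      · intro h
        have : (a.val : ℤ) = 0 := by linarith
        exact ha ((ZMod.val_eq_zero a).1 (by exact_mod_cast this))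
  set X1 := ∑ i : Bool, ∑ k : Bool, TT d P b i k (a.val + (-2) * d)
  set X2 := ∑ i : Bool, ∑ k : Bool, TT d P b i k (a.val + (-1) * d)
  set X3 := ∑ i : Bool, ∑ k : Bool, TT d P b i k (a.val + 0 * d)
  set X4 := ∑ i : Bool, ∑ k : Bool, TT d P b i k (a.val + 1 * d)
  set D : ℂ := if a = 0 ∧ b = 0 then (d : ℂ) else 0
  have hid : X1 + (X2 + (X3 + X4)) - D = X1 + (X2 + ((X3 - D) + X4)) := by ring
  rw [hid]
  have t1 := norm_add_le X1 (X2 + ((X3 - D) + X4))
  have t2 := norm_add_le X2 ((X3 - D) + X4)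
  have t3 := norm_add_le (X3 - D) X4
  linarith

omit [NeZero P] in
/-- **every dimension** -/
theorem near_all : ∃ ψ : ZMod d → ℂ, ∑ j, ‖ψ j‖ ^ 2 = 1 ∧ ∀ a b : ZMod d, (a, b) ≠ (0, 0) →
    ‖ov ψ a b‖ ^ 2 ≤ 10 ^ 9 / ((d : ℝ) + 1) := by
  have hd : 1 ≤ d := Nat.one_le_iff_ne_zero.2 (NeZero.ne d)
  have hd0 : (0 : ℝ) < d := by exact_mod_cast hd
  obtain ⟨P, hP, hP1, hP2⟩ := Nat.exists_prime_lt_and_le_two_mul (16 * d) (by omega)
  have : NeZero P := ⟨hP.ne_zero⟩
  have hP32 : P ≤ 32 * d := by omega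
  have hov := vec_ov hd hP hP1 hP32
  have hsqP : Real.sqrt P ≤ 6 * Real.sqrt d := by
    have h1 : (P : ℝ) ≤ 36 * d := by
      have : (P : ℝ) ≤ 32 * d := by exact_mod_cast hP32
      linarith
    calc Real.sqrt P ≤ Real.sqrt (36 * d) := Real.sqrt_le_sqrt h1
      _ = 6 * Real.sqrt d := by
        rw [Real.sqrt_mul (by norm_num), show (36 : ℝ) = 6 ^ 2 by norm_num,
          Real.sqrt_sq (by norm_num)]
  by_cases hbig : (10 : ℝ) ^ 9 ≤ (d : ℝ) + 1
  · have hN : |(∑ j, ‖vec d P j‖ ^ 2) - d| ≤ 4512 * Real.sqrt d := by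
      have h1 := hov 0 0
      rw [if_pos ⟨rfl, rfl⟩, ov_self] at h1
      have h2 : ((∑ j, ‖vec d P j‖ ^ 2 : ℝ) : ℂ) - (d : ℂ) =
          (((∑ j, ‖vec d P j‖ ^ 2) - d : ℝ) : ℂ) := by push_cast; ring
      rw [h2, Complex.norm_real, Real.norm_eq_abs] at h1
      linarith
    have hsd : Real.sqrt d * Real.sqrt d = d := Real.mul_self_sqrt hd0.le
    have hsd0 : 0 < Real.sqrt d := Real.sqrt_pos.2 hd0
    have hs1 : 4512 * 4 ≤ Real.sqrt d := by
      rw [Real.le_sqrt' (by norm_num)]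
      have h1 : ((4512 : ℝ) * 4) ^ 2 = 325730304 := by norm_num
      have h2 : (10 : ℝ) ^ 9 = 1000000000 := by norm_num
      rw [h1]
      rw [h2] at hbig
      linarith
    rw [abs_le] at hN
    have hN2 : (3 : ℝ) / 4 * d ≤ ∑ j, ‖vec d P j‖ ^ 2 := by nlinarith
    have hpos : 0 < ∑ j, ‖vec d P j‖ ^ 2 := by nlinarith
    refine ⟨nrm (vec d P), nrm_unit hpos, fun a b hab => ?_⟩
    rw [nrm_ov hpos]
    have h3 : ‖ov (vec d P) a b‖ ≤ 4512 * Real.sqrt d := by
      have h1 := hov a b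
      rw [if_neg (fun h => hab (by rw [h.1, h.2])), sub_zero] at h1
      linarith
    have h4 : ‖ov (vec d P) a b‖ / ∑ j, ‖vec d P j‖ ^ 2 ≤ 4512 * Real.sqrt d / (3 / 4 * d) :=
      div_le_div₀ (by positivity) h3 (by positivity) hN2
    have h5 : 0 ≤ ‖ov (vec d P) a b‖ / ∑ j, ‖vec d P j‖ ^ 2 := by positivity
    refine (pow_le_pow_left₀ h5 h4 2).trans ?_
    rw [div_pow, mul_pow, Real.sq_sqrt hd0.le, div_le_div_iff₀ (by positivity) (by positivity)]
    have hd1 : (1 : ℝ) ≤ d := by exact_mod_cast hd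
    nlinarith
  · push Not at hbig
    obtain ⟨ψ, hψ⟩ : ∃ ψ : ZMod d → ℂ, ∑ j, ‖ψ j‖ ^ 2 = 1 := by
      refine ⟨fun j => if j = 0 then 1 else 0, ?_⟩
      have : ∀ j : ZMod d, ‖(if j = 0 then (1 : ℂ) else 0)‖ ^ 2 = if j = 0 then 1 else 0 := by
        intro j; split_ifs <;> simp
      rw [sum_congr rfl fun j _ => this j]
      simp
    refine ⟨ψ, hψ, fun a b _ => ?_⟩
    have h1 := ov_le_one hψ a b
    have h2 : ‖ov ψ a b‖ ^ 2 ≤ 1 := by
      have := norm_nonneg (ov ψ a b)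
      nlinarith
    refine h2.trans ?_
    rw [le_div_iff₀ (by positivity)]
    linarith

end Pool.Agent.V8H99.NF
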