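import Pool.Agent.V8H99.NF.Pert

/-! # Near-fiducials in dimension `p` and `q - 1` -/

set_option autoImplicit false

namespace Pool.Agent.V8H99.NF

open Finset Complex Pool.Agent.R503.SIC
open scoped ComplexConjugate

variable {d : ℕ} [NeZero d]

section units

variable {F : Type} [Field F] [Fintype F] [DecidableEq F]

/-- the discrete exponential -/
def uu (g : Fˣ) (n : ZMod d) : Fˣ := g ^ n.val

omit [Fintype F] [DecidableEq F] in
theorem uu_add {g : Fˣ} (hg : orderOf g = d) (n m : ZMod d) : uu g (n + m) = uu g n * uu g m := by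
  unfold uu
  have h := pow_mod_orderOf g (n.val + m.val)
  rw [hg] at h
  rw [ZMod.val_add, ← pow_add, h]

omit [Fintype F] [DecidableEq F] [NeZero d] in
theorem uu_zero (g : Fˣ) : uu g (0 : ZMod d) = 1 := by
  unfold uu; rw [ZMod.val_zero, pow_zero]

omit [Fintype F] [DecidableEq F] in
theorem uu_inj {g : Fˣ} (hg : orderOf g = d) : Function.Injective (uu g : ZMod d → Fˣ) := by
  intro n m h
  unfold uu at h
  have := pow_injOn_Iio_orderOf (x := g) (by rw [hg]; exact ZMod.val_lt n)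
    (by rw [hg]; exact ZMod.val_lt m) h
  exact ZMod.val_injective d this

theorem uu_bij {g : Fˣ} (hg : orderOf g = d) (hc : Fintype.card F = d + 1) :
    Function.Bijective (uu g : ZMod d → Fˣ) := by
  classical
  refine (Fintype.bijective_iff_injective_and_card _).2 ⟨uu_inj hg, ?_⟩
  rw [ZMod.card, Fintype.card_units, hc]
  omega

theorem sum_zeta {ζ : AddChar F ℂ} (hζ : ζ.IsPrimitive) {g : Fˣ} (hg : orderOf g = d)
    (hc : Fintype.card F = d + 1) (y : F) :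
    ∑ n : ZMod d, ζ (y * (uu g n : Fˣ)) = if y = 0 then (d : ℂ) else -1 := by
  classical
  have h1 : ∑ n : ZMod d, ζ (y * (uu g n : Fˣ)) = ∑ x : Fˣ, ζ (y * (x : F)) :=
    Function.Bijective.sum_comp (uu_bij hg hc) (fun x : Fˣ => ζ (y * (x : F)))
  rw [h1]
  by_cases hy : y = 0
  · rw [if_pos hy, hy]
    simp only [zero_mul, AddChar.map_zero_eq_one, sum_const, card_univ, nsmul_eq_mul, mul_one]
    rw [Fintype.card_units, hc]
    simp
  · rw [if_neg hy]
    have h2 := AddChar.sum_mulShift y hζ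
    rw [if_neg hy] at h2
    have h3 : ∑ x : F, ζ (x * y) = ζ (0 * y) + ∑ x ∈ univ.erase (0 : F), ζ (x * y) :=
      (add_sum_erase _ _ (mem_univ _)).symm
    have h4 : ∑ x ∈ univ.erase (0 : F), ζ (x * y) = ∑ x : Fˣ, ζ (y * (x : F)) := by
      symm
      refine sum_bij (fun x _ => (x : F)) ?_ ?_ ?_ ?_
      · intro x _; exact mem_erase.2 ⟨x.ne_zero, mem_univ _⟩
      · intro x _ z _ h; exact Units.ext h
      · intro x hx; exact ⟨Units.mk0 x (ne_of_mem_erase hx), mem_univ _, rfl⟩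
      · intro x _; rw [mul_comm]
    rw [h4, zero_mul, AddChar.map_zero_eq_one] at h3
    rw [h3] at h2
    push_cast at h2
    linear_combination h2

omit [DecidableEq F] in
theorem norm_zeta (ζ : AddChar F ℂ) (x : F) : ‖ζ x‖ = 1 := AddChar.norm_apply ζ x

omit [DecidableEq F] in
theorem conj_zeta (ζ : AddChar F ℂ) (x : F) : conj (ζ x) = ζ (-x) :=
  (AddChar.map_neg_eq_conj ζ x).symm

/-- the Gauss sum -/
theorem gauss {ζ : AddChar F ℂ} (hζ : ζ.IsPrimitive) {g : Fˣ} (hg : orderOf g = d)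
    (hc : Fintype.card F = d + 1) {c : F} (hc0 : c ≠ 0) (b : ZMod d) :
    ‖∑ n : ZMod d, ζ (c * (uu g n : Fˣ)) * e (b * n)‖ ^ 2 = if b = 0 then 1 else (d : ℝ) + 1 := by
  classical
  have key : ((‖∑ n : ZMod d, ζ (c * (uu g n : Fˣ)) * e (b * n)‖ ^ 2 : ℝ) : ℂ) =
      (d : ℂ) + 1 - if b = 0 then (d : ℂ) else 0 := by
    rw [← conj_mul_self', map_sum, sum_mul]
    have h1 : ∀ m : ZMod d, conj (ζ (c * (uu g m : Fˣ)) * e (b * m)) *
        ∑ n : ZMod d, ζ (c * (uu g n : Fˣ)) * e (b * n) =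
        ∑ r : ZMod d, e (b * r) * ζ ((c * ((uu g r : Fˣ) - 1)) * (uu g m : Fˣ)) := by
      intro m
      rw [mul_sum]
      refine Fintype.sum_equiv (Equiv.subRight m) _ _ fun n => ?_
      simp only [Equiv.subRight_apply]
      rw [map_mul, conj_e, conj_zeta]
      have h2 : uu g n = uu g (n - m) * uu g m := by rw [← uu_add hg, sub_add_cancel]
      have h3 : ζ ((c * ((uu g (n - m) : Fˣ) - 1)) * (uu g m : Fˣ)) =
          ζ (-(c * (uu g m : Fˣ))) * ζ (c * (uu g n : Fˣ)) := by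
        rw [← AddChar.map_add_eq_mul]
        congr 1
        rw [h2]
        push_cast
        ring
      have h4 : e (b * (n - m)) = e (-(b * m)) * e (b * n) := by
        rw [← e_add]; congr 1; ring
      rw [h3, h4]
      ring
    rw [sum_congr rfl fun m _ => h1 m, sum_comm]
    have h5 : ∀ r : ZMod d, ∑ m : ZMod d, e (b * r) * ζ ((c * ((uu g r : Fˣ) - 1)) * (uu g m : Fˣ)) =
        (if r = 0 then (d : ℂ) + 1 else 0) - e (r * b) := by
      intro r
      rw [← mul_sum, sum_zeta hζ hg hc]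
      by_cases hr : r = 0
      · have h6 : c * (((uu g r : Fˣ) : F) - 1) = 0 := by rw [hr, uu_zero]; simp
        rw [if_pos h6, if_pos hr, hr, mul_zero, zero_mul, e_zero]
        ring
      · have h6 : c * (((uu g r : Fˣ) : F) - 1) ≠ 0 := by
          refine mul_ne_zero hc0 (sub_ne_zero.2 fun h => hr ?_)
          apply uu_inj hg
          rw [uu_zero]
          exact Units.ext (by rw [h]; rfl)
        rw [if_neg h6, if_neg hr, mul_comm b r]
        ring
    rw [sum_congr rfl fun r _ => h5 r, sum_sub_distrib, sum_ite_eq', if_pos (mem_univ _), sum_e]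
  have h7 : ((‖∑ n : ZMod d, ζ (c * (uu g n : Fˣ)) * e (b * n)‖ ^ 2 : ℝ) : ℂ) =
      ((if b = 0 then 1 else (d : ℝ) + 1 : ℝ) : ℂ) := by
    rw [key]
    split_ifs <;> push_cast <;> ring
  exact_mod_cast h7

/-- the vector `n ↦ ζ (g ^ n) / √d` -/
noncomputable def welch (ζ : AddChar F ℂ) (g : Fˣ) (n : ZMod d) : ℂ :=
  ζ (uu g n : Fˣ) / (Real.sqrt d : ℂ)

omit [DecidableEq F] [NeZero d] in
theorem welch_norm (ζ : AddChar F ℂ) (g : Fˣ) (n : ZMod d) :
    ‖welch ζ g n‖ = 1 / Real.sqrt d := by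
  unfold welch
  rw [norm_div, norm_zeta, Complex.norm_real, Real.norm_eq_abs, abs_of_nonneg (Real.sqrt_nonneg _)]

omit [DecidableEq F] in
theorem welch_ov (ζ : AddChar F ℂ) {g : Fˣ} (hg : orderOf g = d) (a b : ZMod d) :
    ov (welch ζ g) a b =
      (∑ n : ZMod d, ζ ((1 - (uu g a : Fˣ)) * (uu g n : Fˣ)) * e (b * n)) / d := by
  unfold ov welch
  rw [sum_div]
  refine sum_congr rfl fun n _ => ?_
  rw [map_div₀, conj_zeta, Complex.conj_ofReal]
  have h1 : ζ ((1 - (uu g a : Fˣ)) * (uu g n : Fˣ)) = ζ (-(uu g (n + a) : Fˣ)) * ζ (uu g n : Fˣ) := by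
    rw [← AddChar.map_add_eq_mul]
    congr 1
    rw [uu_add hg]
    push_cast
    ring
  have h2 := sqrt_sq (d := d)
  have h3 := sqrt_ne (d := d)
  have h4 : (d : ℂ) ≠ 0 := Nat.cast_ne_zero.2 (NeZero.ne d)
  rw [h1]
  calc ζ (-(uu g (n + a) : Fˣ)) / (Real.sqrt d : ℂ) * (e (b * n) * (ζ (uu g n : Fˣ) / (Real.sqrt d : ℂ)))
      = ζ (-(uu g (n + a) : Fˣ)) * e (b * n) * ζ (uu g n : Fˣ) /
        ((Real.sqrt d : ℂ) * (Real.sqrt d : ℂ)) := by field_simp
    _ = _ := by rw [h2]; ring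


omit [NeZero d] in
theorem rpow_facts (hd : 1 ≤ d) : ∃ t : ℝ, t = (d : ℝ) ^ (-(1 / 4) : ℝ) ∧ 0 < t ∧ t ≤ 1 ∧
    t ^ 4 * d = 1 ∧ Real.sqrt d * t ^ 2 = 1 ∧ 1 / Real.sqrt d = t ^ 2 := by
  have hd0 : (0 : ℝ) < d := by positivity
  have hd1 : (1 : ℝ) ≤ d := by exact_mod_cast hd
  have ht4 : ((d : ℝ) ^ (-(1 / 4) : ℝ)) ^ 4 * d = 1 := by
    rw [← Real.rpow_natCast, ← Real.rpow_mul hd0.le]
    norm_num
    rw [Real.rpow_neg_one, inv_mul_cancel₀ hd0.ne']
  have ht0 : 0 < (d : ℝ) ^ (-(1 / 4) : ℝ) := by positivity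
  refine ⟨_, rfl, ht0, Real.rpow_le_one_of_one_le_of_nonpos hd1 (by norm_num), ht4, ?_, ?_⟩
  · have h1 : Real.sqrt d = (d : ℝ) ^ ((1 : ℝ) / 2) := Real.sqrt_eq_rpow _
    rw [h1, ← Real.rpow_natCast, ← Real.rpow_mul hd0.le, ← Real.rpow_add hd0]
    norm_num
  · have h1 : Real.sqrt d = (d : ℝ) ^ ((1 : ℝ) / 2) := Real.sqrt_eq_rpow _
    rw [h1, ← Real.rpow_natCast, ← Real.rpow_mul hd0.le, one_div, ← Real.rpow_neg hd0.le]
    norm_num

theorem near_step {x T : ℂ} {r E t c : ℝ} (hr : 0 ≤ r) (_ht : 0 ≤ t) (h1 : ‖x - T‖ ≤ E)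
    (hT : |r * ‖T‖ - 1| ≤ t) (hE : r * E + t ≤ c * t) : |r * ‖x‖ - 1| ≤ c * t := by
  have h2 := norm_sub_norm_le x T
  have h3 := norm_sub_norm_le T x
  rw [norm_sub_rev] at h3
  have h4 : r * (‖x‖ - ‖T‖) ≤ r * E := mul_le_mul_of_nonneg_left (h2.trans h1) hr
  have h5 : r * (‖T‖ - ‖x‖) ≤ r * E := mul_le_mul_of_nonneg_left (h3.trans h1) hr
  rw [abs_le] at hT ⊢
  constructor <;> nlinarith

/-- **dimension `q - 1`** -/
theorem near_units (hd : 2 ≤ d) (hc : Fintype.card F = d + 1) :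
    ∃ ψ : ZMod d → ℂ, ∑ j, ‖ψ j‖ ^ 2 = 1 ∧ ∀ a b : ZMod d, (a, b) ≠ (0, 0) →
      |((d : ℝ) + 1) * ‖ov ψ a b‖ ^ 2 - 1| ≤ 50 * 10 ^ 5 * (d : ℝ) ^ (-(1 / 4) : ℝ) := by
  obtain ⟨t, ht, ht0, ht1, ht4, htd, hts⟩ := rpow_facts (d := d) (by omega)
  have hd0 : (0 : ℝ) < d := by positivity
  obtain ⟨g, hgen⟩ := IsCyclic.exists_generator (α := Fˣ)
  have hg : orderOf g = d := by
    rw [orderOf_eq_card_of_forall_mem_zpowers hgen, Nat.card_eq_fintype_card, Fintype.card_units, hc]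
    omega
  have hζ := AddChar.FiniteField.primitiveChar_to_Complex_isPrimitive F
  set ζ := AddChar.FiniteField.primitiveChar_to_Complex F with hζdef
  have hη : ∀ j : ZMod d, ‖welch ζ g j‖ ≤ t ^ 2 := fun j => by rw [welch_norm, hts]
  have hsd : Real.sqrt d ^ 2 = d := Real.sq_sqrt hd0.le
  have hsd0 : 0 < Real.sqrt d := Real.sqrt_pos.2 hd0
  -- the Fourier transform
  have hK : ∀ b : ZMod d, ‖∑ j, e (b * j) * welch ζ g j‖ ≤ 2 := by
    intro b
    have h1 : ∑ j, e (b * j) * welch ζ g j =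
        (∑ j : ZMod d, ζ (1 * (uu g j : Fˣ)) * e (b * j)) / (Real.sqrt d : ℂ) := by
      rw [sum_div]
      refine sum_congr rfl fun j _ => ?_
      unfold welch
      rw [one_mul]; ring
    rw [h1, norm_div, Complex.norm_real, Real.norm_eq_abs, abs_of_pos hsd0, div_le_iff₀ hsd0]
    have h2 := gauss hζ hg hc (one_ne_zero (α := F)) b
    have h3 : ‖∑ j : ZMod d, ζ (1 * (uu g j : Fˣ)) * e (b * j)‖ ^ 2 ≤ (2 * Real.sqrt d) ^ 2 := by
      rw [h2, mul_pow, hsd]
      have hd2 : (2 : ℝ) ≤ d := by exact_mod_cast hd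
      split_ifs <;> nlinarith
    exact (sq_le_sq₀ (norm_nonneg _) (by positivity)).1 h3
  have hw0 : (0 : ℝ) ≤ t ^ 3 := by positivity
  have herr := fun a b : ZMod d => ov_pert_err hη hK ht0.le hw0 a b
  have hE : 2 * t * t ^ 2 + 2 * t ^ 3 * 2 + 2 * t * t ^ 3 ≤ 8 * t ^ 3 := by
    have : t ^ 4 ≤ t ^ 3 := pow_le_pow_of_le_one ht0.le ht1 (by norm_num)
    nlinarith
  have hw2 : ((t ^ 3 : ℝ) : ℂ) ^ 2 * (d : ℂ) = ((t ^ 2 : ℝ) : ℂ) := by
    have : (t ^ 3) ^ 2 * (d : ℝ) = t ^ 2 := by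
      calc (t ^ 3) ^ 2 * (d : ℝ) = t ^ 2 * (t ^ 4 * d) := by ring
        _ = t ^ 2 := by rw [ht4, mul_one]
    exact_mod_cast this
  have ht3 : t ^ 3 ≤ t := by
    calc t ^ 3 ≤ t ^ 1 := pow_le_pow_of_le_one ht0.le ht1 (by norm_num)
      _ = t := pow_one t
  have ht2 : t ^ 2 ≤ t := by
    calc t ^ 2 ≤ t ^ 1 := pow_le_pow_of_le_one ht0.le ht1 (by norm_num)
      _ = t := pow_one t
  refine near (c := 10) (by norm_num) (pert (welch ζ g) t (t ^ 3)) hd ?_ ?_
  · -- the norm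
    rw [← ht]
    have h1 := herr 0 0
    rw [ov_self, ov_self, if_pos rfl, if_pos rfl, hw2] at h1
    have h2 : ∑ j : ZMod d, ‖welch ζ g j‖ ^ 2 = 1 := by
      have : ∀ j : ZMod d, ‖welch ζ g j‖ ^ 2 = 1 / d := fun j => by
        rw [welch_norm, div_pow, hsd, one_pow]
      rw [sum_congr rfl fun j _ => this j, sum_const, card_univ, ZMod.card, nsmul_eq_mul]
      field_simp
    rw [h2] at h1
    have h3 : ((∑ j : ZMod d, ‖pert (welch ζ g) t (t ^ 3) j‖ ^ 2 : ℝ) : ℂ) -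
        (((1 : ℝ) : ℂ) + (t : ℂ) ^ 2 + ((t ^ 2 : ℝ) : ℂ)) =
        (((∑ j : ZMod d, ‖pert (welch ζ g) t (t ^ 3) j‖ ^ 2) - (1 + t ^ 2 + t ^ 2) : ℝ) : ℂ) := by
      push_cast; ring
    rw [h3, Complex.norm_real, Real.norm_eq_abs, abs_le] at h1
    rw [abs_le]
    have h4 : (0 : ℝ) ≤ t ^ 2 := by positivity
    constructor <;> linarith
  · intro a b hab
    rw [← ht]
    have h1 := herr a b
    -- the main term
    have hT : |Real.sqrt d * ‖ov (welch ζ g) a b + (if a = 0 then (t : ℂ) ^ 2 else 0) +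
        (if b = 0 then ((t ^ 3 : ℝ) : ℂ) ^ 2 * d else 0)‖ - 1| ≤ t := by
      rw [hw2]
      have hnt : ‖((t ^ 2 : ℝ) : ℂ)‖ = t ^ 2 := by
        rw [Complex.norm_real, Real.norm_eq_abs, abs_of_nonneg (by positivity)]
      by_cases ha : a = 0
      · have hb : b ≠ 0 := fun hb => hab (by rw [ha, hb])
        have h2 : ov (welch ζ g) a b = 0 := by
          rw [welch_ov ζ hg, ha, uu_zero]
          have h3 : ∀ n : ZMod d, ζ ((1 - ((1 : Fˣ) : F)) * (uu g n : Fˣ)) * e (b * n) = e (n * b) := by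
            intro n
            rw [Units.val_one, sub_self, zero_mul, AddChar.map_zero_eq_one, one_mul, mul_comm]
          rw [sum_congr rfl fun n _ => h3 n, sum_e, if_neg hb, zero_div]
        rw [h2, if_pos ha, if_neg hb, zero_add, add_zero]
        have h3 : ‖(t : ℂ) ^ 2‖ = t ^ 2 := by
          rw [norm_pow, Complex.norm_real, Real.norm_eq_abs, abs_of_pos ht0]
        rw [h3, htd, sub_self, abs_zero]
        exact ht0.le
      · have hua : (1 : F) - (uu g a : Fˣ) ≠ 0 := by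
          refine sub_ne_zero.2 fun h => ha ?_
          apply uu_inj hg
          rw [uu_zero]
          exact Units.ext (by rw [← h]; rfl)
        have h2 := gauss hζ hg hc hua b
        have h3 : ‖ov (welch ζ g) a b‖ =
            ‖∑ n : ZMod d, ζ ((1 - (uu g a : Fˣ)) * (uu g n : Fˣ)) * e (b * n)‖ / d := by
          rw [welch_ov ζ hg, norm_div, Complex.norm_natCast]
        have hdt : 1 / (d : ℝ) = t ^ 4 := by
          rw [div_eq_iff hd0.ne', ht4]
        rw [if_neg ha, add_zero]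
        by_cases hb : b = 0
        · rw [if_pos hb] at h2 ⊢
          have h4 : ‖∑ n : ZMod d, ζ ((1 - (uu g a : Fˣ)) * (uu g n : Fˣ)) * e (b * n)‖ = 1 := by
            have := norm_nonneg (∑ n : ZMod d, ζ ((1 - (uu g a : Fˣ)) * (uu g n : Fˣ)) * e (b * n))
            nlinarith
          rw [h4, hdt] at h3
          have h5 := norm_add_le (ov (welch ζ g) a b) ((t ^ 2 : ℝ) : ℂ)
          have h6 : ‖((t ^ 2 : ℝ) : ℂ)‖ ≤ ‖ov (welch ζ g) a b + ((t ^ 2 : ℝ) : ℂ)‖ +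
              ‖ov (welch ζ g) a b‖ := by
            calc ‖((t ^ 2 : ℝ) : ℂ)‖ = ‖(ov (welch ζ g) a b + ((t ^ 2 : ℝ) : ℂ)) -
                  ov (welch ζ g) a b‖ := by rw [add_sub_cancel_left]
              _ ≤ _ := norm_sub_le _ _
          rw [h3, hnt] at h5 h6
          have h7 : Real.sqrt d * t ^ 4 = t ^ 2 := by
            calc Real.sqrt d * t ^ 4 = (Real.sqrt d * t ^ 2) * t ^ 2 := by ring
              _ = t ^ 2 := by rw [htd, one_mul]
          have h8 := mul_le_mul_of_nonneg_left h5 hsd0.le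
          have h9 := mul_le_mul_of_nonneg_left h6 hsd0.le
          rw [mul_add, h7, htd] at h8
          rw [mul_add, h7, htd] at h9
          rw [abs_le]
          constructor <;> linarith
        · rw [if_neg hb] at h2 ⊢
          rw [add_zero, h3]
          obtain ⟨X, hX⟩ : ∃ X, X = ‖∑ n : ZMod d, ζ ((1 - (uu g a : Fˣ)) * (uu g n : Fˣ)) *
            e (b * n)‖ := ⟨_, rfl⟩
          rw [← hX] at h2 ⊢
          have hX0 : 0 ≤ X := by rw [hX]; exact norm_nonneg _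
          have hY2 : (Real.sqrt d * (X / d)) ^ 2 = 1 + t ^ 4 := by
            rw [mul_pow, div_pow, hsd, h2, ← hdt]
            field_simp
          have hY0 : 0 ≤ Real.sqrt d * (X / d) := by positivity
          have h4 : 1 ≤ Real.sqrt d * (X / d) := by
            have : (0 : ℝ) ≤ t ^ 4 := by positivity
            nlinarith
          have h5 : Real.sqrt d * (X / d) ≤ 1 + t ^ 4 := by
            have : (0 : ℝ) ≤ t ^ 4 := by positivity
            nlinarith
          have h6 : t ^ 4 ≤ t := by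
            calc t ^ 4 ≤ t ^ 1 := pow_le_pow_of_le_one ht0.le ht1 (by norm_num)
              _ = t := pow_one t
          rw [abs_le]
          constructor <;> linarith
    exact near_step hsd0.le (by linarith) h1 hT (by
      have : Real.sqrt d * t ^ 3 = t := by
        calc Real.sqrt d * t ^ 3 = (Real.sqrt d * t ^ 2) * t := by ring
          _ = t := by rw [htd, one_mul]
      have h8 := mul_le_mul_of_nonneg_left hE hsd0.le
      have h9 : Real.sqrt d * (8 * t ^ 3) = 8 * t := by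
        calc Real.sqrt d * (8 * t ^ 3) = 8 * (Real.sqrt d * t ^ 3) := by ring
          _ = 8 * t := by rw [this]
      linarith)

end units

theorem alltop_norm (j : ZMod d) : ‖alltop d j‖ = 1 / Real.sqrt d := by
  unfold alltop
  rw [norm_div, norm_e, Complex.norm_real, Real.norm_eq_abs, abs_of_nonneg (Real.sqrt_nonneg _)]

/-- **prime dimension** -/
theorem near_prime (hp : d.Prime) (hp5 : 5 ≤ d) :
    ∃ ψ : ZMod d → ℂ, ∑ j, ‖ψ j‖ ^ 2 = 1 ∧ ∀ a b : ZMod d, (a, b) ≠ (0, 0) →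
      |((d : ℝ) + 1) * ‖ov ψ a b‖ ^ 2 - 1| ≤ 50 * 10 ^ 5 * (d : ℝ) ^ (-(1 / 4) : ℝ) := by
  obtain ⟨t, ht, ht0, ht1, ht4, htd, hts⟩ := rpow_facts (d := d) (by omega)
  have hd0 : (0 : ℝ) < d := by positivity
  have hη : ∀ j : ZMod d, ‖alltop d j‖ ≤ t ^ 2 := fun j => by rw [alltop_norm, hts]
  have hsd0 : 0 < Real.sqrt d := Real.sqrt_pos.2 hd0
  obtain ⟨K, hK⟩ : ∃ K : ℝ, ∀ b : ZMod d, ‖∑ j, e (b * j) * alltop d j‖ ≤ K := by
    obtain ⟨K, hK⟩ := Finset.exists_le (univ.image fun b : ZMod d => ‖∑ j, e (b * j) * alltop d j‖)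
    exact ⟨K, fun b => hK _ (mem_image_of_mem _ (mem_univ b))⟩
  have herr := fun a b : ZMod d => ov_pert_err hη hK ht0.le le_rfl a b
  have hE : 2 * t * t ^ 2 + 2 * 0 * K + 2 * t * 0 = 2 * t ^ 3 := by ring
  have ht3 : t ^ 3 ≤ t := by
    calc t ^ 3 ≤ t ^ 1 := pow_le_pow_of_le_one ht0.le ht1 (by norm_num)
      _ = t := pow_one t
  have ht2 : t ^ 2 ≤ t := by
    calc t ^ 2 ≤ t ^ 1 := pow_le_pow_of_le_one ht0.le ht1 (by norm_num)
      _ = t := pow_one t
  refine near (c := 10) (by norm_num) (pert (alltop d) t 0) (by omega) ?_ ?_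
  · rw [← ht]
    have h1 := herr 0 0
    rw [ov_self, ov_self, if_pos rfl, if_pos rfl, hE, alltop_unit] at h1
    have h3 : ((∑ j : ZMod d, ‖pert (alltop d) t 0 j‖ ^ 2 : ℝ) : ℂ) -
        (((1 : ℝ) : ℂ) + (t : ℂ) ^ 2 + ((0 : ℝ) : ℂ) ^ 2 * d) =
        (((∑ j : ZMod d, ‖pert (alltop d) t 0 j‖ ^ 2) - (1 + t ^ 2) : ℝ) : ℂ) := by
      push_cast; ring
    rw [h3, Complex.norm_real, Real.norm_eq_abs, abs_le] at h1
    rw [abs_le]
    have h4 : (0 : ℝ) ≤ t ^ 2 := by positivity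
    have h5 : (0 : ℝ) ≤ t ^ 3 := by positivity
    constructor <;> linarith
  · intro a b hab
    rw [← ht]
    have h1 := herr a b
    rw [hE] at h1
    have hT : |Real.sqrt d * ‖ov (alltop d) a b + (if a = 0 then (t : ℂ) ^ 2 else 0) +
        (if b = 0 then ((0 : ℝ) : ℂ) ^ 2 * d else 0)‖ - 1| ≤ t := by
      have h2 := alltop_g hp hp5 (a, b) (by
        intro h
        exact hab h)
      unfold g at h2
      simp only at h2
      have h3 : (if b = 0 then ((0 : ℝ) : ℂ) ^ 2 * (d : ℂ) else 0) = 0 := by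
        split_ifs <;> simp
      rw [h3, add_zero]
      by_cases ha : a = 0
      · rw [if_pos ha] at h2 ⊢
        have h4 : ov (alltop d) a b = 0 := by
          rw [← norm_eq_zero]
          exact pow_eq_zero_iff (two_ne_zero) |>.1 h2
        have h5 : ‖(t : ℂ) ^ 2‖ = t ^ 2 := by
          rw [norm_pow, Complex.norm_real, Real.norm_eq_abs, abs_of_pos ht0]
        rw [h4, zero_add, h5, htd, sub_self, abs_zero]
        exact ht0.le
      · rw [if_neg ha] at h2 ⊢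
        rw [add_zero]
        have h4 : (Real.sqrt d * ‖ov (alltop d) a b‖) ^ 2 = 1 := by
          rw [mul_pow, Real.sq_sqrt hd0.le, h2]
          field_simp
        have h5 : 0 ≤ Real.sqrt d * ‖ov (alltop d) a b‖ := by positivity
        have h6 : Real.sqrt d * ‖ov (alltop d) a b‖ = 1 := by nlinarith
        rw [h6, sub_self, abs_zero]
        exact ht0.le
    exact near_step hsd0.le ht0.le h1 hT (by
      have : Real.sqrt d * t ^ 3 = t := by
        calc Real.sqrt d * t ^ 3 = (Real.sqrt d * t ^ 2) * t := by ring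
          _ = t := by rw [htd, one_mul]
      nlinarith)

/-- small dimensions -/
theorem near_small (hd : d ≤ 4) :
    ∃ ψ : ZMod d → ℂ, ∑ j, ‖ψ j‖ ^ 2 = 1 ∧ ∀ a b : ZMod d, (a, b) ≠ (0, 0) →
      |((d : ℝ) + 1) * ‖ov ψ a b‖ ^ 2 - 1| ≤ 50 * 10 ^ 5 * (d : ℝ) ^ (-(1 / 4) : ℝ) := by
  have hdpos : 1 ≤ d := Nat.one_le_iff_ne_zero.2 (NeZero.ne d)
  obtain ⟨t, ht, ht0, ht1, ht4, htd, hts⟩ := rpow_facts (d := d) hdpos
  rw [← ht]
  have hd4 : (d : ℝ) ≤ 4 := by exact_mod_cast hd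
  obtain ⟨ψ, hψ⟩ : ∃ ψ : ZMod d → ℂ, ∑ j, ‖ψ j‖ ^ 2 = 1 := by
    refine ⟨fun j => if j = 0 then 1 else 0, ?_⟩
    have : ∀ j : ZMod d, ‖(if j = 0 then (1 : ℂ) else 0)‖ ^ 2 = if j = 0 then 1 else 0 := by
      intro j; split_ifs <;> simp
    rw [sum_congr rfl fun j _ => this j]
    simp
  refine ⟨ψ, hψ, fun a b _ => ?_⟩
  have h1 := ov_le_one hψ a b
  have h2 : ‖ov ψ a b‖ ^ 2 ≤ 1 := by
    have := norm_nonneg (ov ψ a b)
    nlinarith
  have h3 : 0 ≤ ‖ov ψ a b‖ ^ 2 := by positivity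
  have h5 : (1 : ℝ) / 4 ≤ t ^ 4 := by
    have : (0 : ℝ) < t ^ 4 := by positivity
    nlinarith
  have h6 : t ^ 4 ≤ t := by
    calc t ^ 4 ≤ t ^ 1 := pow_le_pow_of_le_one ht0.le ht1 (by norm_num)
      _ = t := pow_one t
  have h7 : (0 : ℝ) ≤ d := by positivity
  rw [abs_le]
  constructor <;> nlinarith

/-- **dimension `p` or `q - 1`** -/
theorem near_special (h : d.Prime ∨ IsPrimePow (d + 1)) :
    ∃ ψ : ZMod d → ℂ, ∑ j, ‖ψ j‖ ^ 2 = 1 ∧ ∀ a b : ZMod d, (a, b) ≠ (0, 0) →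
      |((d : ℝ) + 1) * ‖ov ψ a b‖ ^ 2 - 1| ≤ 50 * 10 ^ 5 * (d : ℝ) ^ (-(1 / 4) : ℝ) := by
  classical
  by_cases hd : d ≤ 4
  · exact near_small hd
  · rcases h with h | h
    · exact near_prime h (by omega)
    · obtain ⟨p, k, hp, hk, hpk⟩ := h
      haveI : Fact p.Prime := ⟨hp.nat_prime⟩
      have hcard : Nat.card (GaloisField p k) = d + 1 := by
        rw [GaloisField.card p k hk.ne', hpk]
      haveI : Fintype (GaloisField p k) := Fintype.ofFinite _
      exact near_units (F := GaloisField p k) (by omega) (by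
        rw [← Nat.card_eq_fintype_card, hcard])

end Pool.Agent.V8H99.NF
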