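import Pool.Agent.R503.SIC.Exc2
import Pool.Agent.N655.WH.Core

/-! # Completion of smooth incomplete Gauss sums without logarithm -/

set_option autoImplicit false

namespace Pool.Agent.V8H99.NF

open Finset Complex Pool.Agent.R503.SIC
open scoped ComplexConjugate

variable {P : ℕ} [NeZero P]

/-- the Fourier transform -/
noncomputable def ft (f : ZMod P → ℂ) (h : ZMod P) : ℂ := ∑ x, f x * e (h * x)

theorem parseval' (f : ZMod P → ℂ) : ∑ h, ‖ft f h‖ ^ 2 = P * ∑ x, ‖f x‖ ^ 2 := by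
  unfold ft
  exact Pool.Agent.N655.WH.parseval f

theorem ft_diff (f : ZMod P → ℂ) (h : ZMod P) :
    ft (fun x => f (x + 1) - f x) h = (e (-h) - 1) * ft f h := by
  unfold ft
  have h1 : ∑ x, f (x + 1) * e (h * x) = e (-h) * ∑ x, f x * e (h * x) := by
    rw [mul_sum]
    refine Fintype.sum_equiv (Equiv.addRight 1) _ _ fun x => ?_
    simp only [Equiv.coe_addRight]
    have h2 : e (-h) * e (h * (x + 1)) = e (h * x) := by
      rw [← e_add]; congr 1; ring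
    rw [← h2]; ring
  calc ∑ x, (f (x + 1) - f x) * e (h * x) = ∑ x, f (x + 1) * e (h * x) - ∑ x, f x * e (h * x) := by
        rw [← sum_sub_distrib]
        exact sum_congr rfl fun x _ => by ring
    _ = _ := by rw [h1]; ring

/-- completion -/
theorem compl (hp : P.Prime) (hp2 : 2 < P) {A : ZMod P} (hA : A ≠ 0) (B : ZMod P)
    (f : ZMod P → ℂ) : ‖∑ x, f x * e (A * x ^ 2 + B * x)‖ ≤ (∑ h, ‖ft f h‖) / Real.sqrt P := by
  have hP0 : (0 : ℝ) < P := by exact_mod_cast hp.pos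
  have hPc : (P : ℂ) ≠ 0 := Nat.cast_ne_zero.2 (NeZero.ne P)
  have hinv : ∀ x, f x = (1 / (P : ℂ)) * ∑ h, ft f h * e (-(h * x)) := by
    intro x
    have h1 : ∑ h, ft f h * e (-(h * x)) = ∑ y, f y * ∑ h : ZMod P, e (h * (y - x)) := by
      unfold ft
      simp_rw [sum_mul]
      rw [sum_comm]
      refine sum_congr rfl fun y _ => ?_
      rw [mul_sum]
      refine sum_congr rfl fun h _ => ?_
      rw [mul_assoc, ← e_add]
      congr 2; ring
    rw [h1, sum_eq_single x]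
    · rw [sum_e, if_pos (sub_self x)]
      field_simp
    · intro y _ hy
      rw [sum_e, if_neg (sub_ne_zero.2 hy), mul_zero]
    · intro h; exact absurd (mem_univ _) h
  have h2 : ∑ x, f x * e (A * x ^ 2 + B * x) =
      (1 / (P : ℂ)) * ∑ h, ft f h * ∑ x, e (A * x ^ 2 + (B - h) * x) := by
    rw [sum_congr rfl fun x _ => by rw [hinv x]]
    simp_rw [mul_sum, sum_mul]
    rw [sum_comm]
    refine sum_congr rfl fun h _ => sum_congr rfl fun x _ => ?_
    have h3 : e (A * x ^ 2 + (B - h) * x) = e (-(h * x)) * e (A * x ^ 2 + B * x) := by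
      rw [← e_add]; congr 1; ring
    rw [h3]; ring
  have hsq : ∀ h : ZMod P, ‖∑ x : ZMod P, e (A * x ^ 2 + (B - h) * x)‖ = Real.sqrt P := by
    intro h
    rw [← quad hp hp2 hA (B - h), Real.sqrt_sq (norm_nonneg _)]
  rw [h2, norm_mul, norm_div, norm_one, Complex.norm_natCast]
  have h4 : ‖∑ h, ft f h * ∑ x, e (A * x ^ 2 + (B - h) * x)‖ ≤ (∑ h, ‖ft f h‖) * Real.sqrt P := by
    refine (norm_sum_le _ _).trans ?_
    rw [sum_mul]
    refine sum_le_sum fun h _ => ?_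
    rw [norm_mul, hsq]
  have h5 : Real.sqrt P * Real.sqrt P = P := Real.mul_self_sqrt hP0.le
  have h6 : 0 < Real.sqrt P := Real.sqrt_pos.2 hP0
  calc 1 / (P : ℝ) * ‖∑ h, ft f h * ∑ x, e (A * x ^ 2 + (B - h) * x)‖
      ≤ 1 / (P : ℝ) * ((∑ h, ‖ft f h‖) * Real.sqrt P) := by gcongr
    _ = (∑ h, ‖ft f h‖) / Real.sqrt P := by
        rw [eq_div_iff h6.ne']
        calc 1 / (P : ℝ) * ((∑ h, ‖ft f h‖) * Real.sqrt P) * Real.sqrt P
            = (∑ h, ‖ft f h‖) * ((Real.sqrt P * Real.sqrt P) / P) := by ring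
          _ = ∑ h, ‖ft f h‖ := by rw [h5, div_self hP0.ne', mul_one]

/-- lower bound for `|e(h) - 1|` -/
theorem lam_lower (h : ZMod P) (hh : h ≠ 0) :
    1 / ‖e (-h) - 1‖ ^ 2 ≤ (P : ℝ) ^ 2 / 16 * (1 / (h.val : ℝ) ^ 2 + 1 / ((P : ℝ) - h.val) ^ 2) := by
  have hP0 : (0 : ℝ) < P := by exact_mod_cast Nat.pos_of_ne_zero (NeZero.ne P)
  have hk0 : 0 < h.val := Nat.pos_of_ne_zero (by rwa [Ne, ZMod.val_eq_zero])
  have hkP : h.val < P := ZMod.val_lt h
  have hk0' : (0 : ℝ) < h.val := by exact_mod_cast hk0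
  have hkP' : (h.val : ℝ) < P := by exact_mod_cast hkP
  obtain ⟨k, hk⟩ : ∃ k : ℝ, k = h.val := ⟨_, rfl⟩
  rw [← hk] at hk0' hkP' ⊢
  have h1 : ‖e (-h) - 1‖ = 2 * Real.sin (Real.pi * k / P) := by
    have h2 : ‖e (-h) - 1‖ = ‖e h - 1‖ := by
      rw [← conj_e, ← norm_conj' (e h - 1), map_sub, map_one]
    have h3 : e h = Complex.exp (Complex.I * ((2 * Real.pi * k / P : ℝ) : ℂ)) := by
      unfold e
      rw [ZMod.stdAddChar_apply, ZMod.toCircle_apply]
      congr 1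
      rw [hk]
      push_cast
      ring
    rw [h2, h3, Complex.norm_exp_I_mul_ofReal_sub_one]
    have h4 : 2 * Real.pi * k / P / 2 = Real.pi * k / P := by ring
    rw [h4, Real.norm_eq_abs, abs_of_nonneg]
    have : 0 ≤ Real.sin (Real.pi * k / P) := by
      apply Real.sin_nonneg_of_nonneg_of_le_pi
      · positivity
      · rw [div_le_iff₀ hP0]
        nlinarith [Real.pi_pos]
    linarith
  rw [h1]
  -- Jordan's inequality
  have hj : ∀ y : ℝ, 0 < y → y ≤ P / 2 → 1 / (2 * Real.sin (Real.pi * y / P)) ^ 2 ≤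
      (P : ℝ) ^ 2 / 16 * (1 / y ^ 2) := by
    intro y hy hyP
    have h5 : 2 / Real.pi * (Real.pi * y / P) ≤ Real.sin (Real.pi * y / P) := by
      apply Real.mul_le_sin
      · positivity
      · rw [div_le_div_iff₀ hP0 (by norm_num)]
        nlinarith [Real.pi_pos]
    have h6 : 2 / Real.pi * (Real.pi * y / P) = 2 * y / P := by
      have := Real.pi_pos.ne'
      field_simp
    rw [h6] at h5
    have h7 : 0 < 2 * y / P := by positivity
    have h8 : (P : ℝ) ^ 2 / 16 * (1 / y ^ 2) = 1 / (2 * (2 * y / P)) ^ 2 := by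
      field_simp
      ring
    rw [h8]
    apply one_div_le_one_div_of_le (by positivity)
    apply pow_le_pow_left₀ (by positivity)
    linarith
  have hpos1 : 0 ≤ (P : ℝ) ^ 2 / 16 * (1 / k ^ 2) := by positivity
  have hpos2 : 0 ≤ (P : ℝ) ^ 2 / 16 * (1 / ((P : ℝ) - k) ^ 2) := by positivity
  rw [mul_add]
  rcases le_total k (P / 2) with h9 | h9
  · have := hj k hk0' h9
    linarith
  · have h10 := hj (P - k) (by linarith) (by linarith)
    have h11 : Real.sin (Real.pi * (P - k) / P) = Real.sin (Real.pi * k / P) := by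
      have : Real.pi * (P - k) / P = Real.pi - Real.pi * k / P := by field_simp
      rw [this, Real.sin_pi_sub]
    rw [h11] at h10
    linarith

theorem sum_lam (μ : ℝ) (hμ : 0 < μ) :
    ∑ h : ZMod P, 1 / (μ + ‖e (-h) - 1‖ ^ 2) ≤ 1 / μ + (P : ℝ) ^ 2 / 4 := by
  classical
  have hP0 : (0 : ℝ) < P := by exact_mod_cast Nat.pos_of_ne_zero (NeZero.ne P)
  rw [← add_sum_erase _ _ (mem_univ (0 : ZMod P))]
  have h0 : 1 / (μ + ‖e (-(0 : ZMod P)) - 1‖ ^ 2) = 1 / μ := by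
    rw [neg_zero, e_zero, sub_self, norm_zero]
    norm_num
  rw [h0]
  have h1 : ∀ h ∈ univ.erase (0 : ZMod P), 1 / (μ + ‖e (-h) - 1‖ ^ 2) ≤
      (P : ℝ) ^ 2 / 16 * (1 / (h.val : ℝ) ^ 2 + 1 / ((P : ℝ) - h.val) ^ 2) := by
    intro h hh
    have hne := ne_of_mem_erase hh
    refine le_trans ?_ (lam_lower h hne)
    have h2 : 0 < ‖e (-h) - 1‖ ^ 2 := by
      have : e (-h) - 1 ≠ 0 := by
        intro h3
        have h4 : e (-h) = e (0 : ZMod P) := by rw [e_zero]; linear_combination h3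
        exact hne (neg_eq_zero.1 (e_inj h4))
      positivity
    apply one_div_le_one_div_of_le h2
    linarith
  refine add_le_add le_rfl ((sum_le_sum h1).trans ?_)
  rw [← mul_sum]
  have h2 : ∑ h ∈ univ.erase (0 : ZMod P), (1 / (h.val : ℝ) ^ 2 + 1 / ((P : ℝ) - h.val) ^ 2) =
      ∑ k ∈ Ioo 0 P, (1 / (k : ℝ) ^ 2 + 1 / ((P : ℝ) - k) ^ 2) := by
    refine sum_bij (fun h _ => h.val) ?_ ?_ ?_ ?_
    · intro h hh
      have hne := ne_of_mem_erase hh
      exact mem_Ioo.2 ⟨Nat.pos_of_ne_zero (by rwa [Ne, ZMod.val_eq_zero]), ZMod.val_lt h⟩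
    · intro h _ h' _ hhh
      exact ZMod.val_injective P hhh
    · intro k hk
      rw [mem_Ioo] at hk
      refine ⟨(k : ZMod P), mem_erase.2 ⟨?_, mem_univ _⟩, ?_⟩
      · intro h3
        have := ZMod.val_natCast_of_lt hk.2
        rw [h3, ZMod.val_zero] at this
        omega
      · exact ZMod.val_natCast_of_lt hk.2
    · intro h _; rfl
  rw [h2, sum_add_distrib]
  have h3 : ∑ k ∈ Ioo 0 P, 1 / (k : ℝ) ^ 2 ≤ 2 := by
    have := sum_Ioo_inv_sq_le (α := ℝ) 0 P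
    simp only [Nat.cast_zero, zero_add, div_one] at this
    refine le_trans (le_of_eq (sum_congr rfl fun k _ => ?_)) this
    rw [one_div]
  have h4 : ∑ k ∈ Ioo 0 P, 1 / ((P : ℝ) - k) ^ 2 = ∑ k ∈ Ioo 0 P, 1 / (k : ℝ) ^ 2 := by
    refine sum_bij' (fun k _ => P - k) (fun k _ => P - k) ?_ ?_ ?_ ?_ ?_
    · intro k hk; rw [mem_Ioo] at hk ⊢; omega
    · intro k hk; rw [mem_Ioo] at hk ⊢; omega
    · intro k hk; rw [mem_Ioo] at hk; show P - (P - k) = k; omega
    · intro k hk; rw [mem_Ioo] at hk; show P - (P - k) = k; omega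
    · intro k hk
      rw [mem_Ioo] at hk
      rw [Nat.cast_sub hk.2.le]
  rw [h4]
  nlinarith [sq_nonneg (P : ℝ)]

/-- Sobolev inequality for the Fourier transform -/
theorem sobolev (f : ZMod P → ℂ) (μ : ℝ) (hμ : 0 < μ) :
    (∑ h, ‖ft f h‖) ^ 2 ≤ (1 / μ + (P : ℝ) ^ 2 / 4) *
      (P * (μ * ∑ x, ‖f x‖ ^ 2 + ∑ x, ‖f (x + 1) - f x‖ ^ 2)) := by
  have hP0 : (0 : ℝ) < P := by exact_mod_cast Nat.pos_of_ne_zero (NeZero.ne P)
  have h1 : (∑ h, ‖ft f h‖) ^ 2 ≤ (∑ h : ZMod P, 1 / (μ + ‖e (-h) - 1‖ ^ 2)) *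
      ∑ h : ZMod P, (μ + ‖e (-h) - 1‖ ^ 2) * ‖ft f h‖ ^ 2 := by
    apply sum_sq_le_sum_mul_sum_of_sq_le_mul
    · intro h _; positivity
    · intro h _; positivity
    · intro h _
      have : 0 < μ + ‖e (-h) - 1‖ ^ 2 := by positivity
      apply le_of_eq
      field_simp
  have h2 : ∑ h : ZMod P, (μ + ‖e (-h) - 1‖ ^ 2) * ‖ft f h‖ ^ 2 =
      P * (μ * ∑ x, ‖f x‖ ^ 2 + ∑ x, ‖f (x + 1) - f x‖ ^ 2) := by
    have h3 := parseval' f
    have h4 := parseval' (fun x => f (x + 1) - f x)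
    have h5 : ∀ h : ZMod P, (μ + ‖e (-h) - 1‖ ^ 2) * ‖ft f h‖ ^ 2 = μ * ‖ft f h‖ ^ 2 +
        ‖ft (fun x => f (x + 1) - f x) h‖ ^ 2 := by
      intro h
      rw [ft_diff, norm_mul]
      ring
    rw [sum_congr rfl fun h _ => h5 h, sum_add_distrib, ← mul_sum, h3, h4]
    ring
  rw [h2] at h1
  refine h1.trans (mul_le_mul_of_nonneg_right (sum_lam μ hμ) ?_)
  positivity

end Pool.Agent.V8H99.NF
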