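import Pool.Agent.R503.SIC.Exc2

/-! # Perturbation of flat vectors, and normalization -/

set_option autoImplicit false

namespace Pool.Agent.V8H99.NF

open Finset Complex Pool.Agent.R503.SIC
open scoped ComplexConjugate

variable {d : ℕ} [NeZero d]

/-- Cauchy–Schwarz: overlaps of unit vectors are at most one -/
theorem ov_le_one {ψ : ZMod d → ℂ} (h : ∑ j, ‖ψ j‖ ^ 2 = 1) (a b : ZMod d) : ‖ov ψ a b‖ ≤ 1 := by
  unfold ov
  calc ‖∑ j, conj (ψ (j + a)) * (e (b * j) * ψ j)‖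
      ≤ ∑ j, ‖conj (ψ (j + a)) * (e (b * j) * ψ j)‖ := norm_sum_le _ _
    _ ≤ ∑ j, (‖ψ (j + a)‖ ^ 2 / 2 + ‖ψ j‖ ^ 2 / 2) := by
        refine sum_le_sum fun j _ => ?_
        rw [norm_mul, norm_conj', norm_mul, norm_e, one_mul]
        nlinarith [sq_nonneg (‖ψ (j + a)‖ - ‖ψ j‖)]
    _ = 1 := by
        rw [sum_add_distrib, ← sum_div, ← sum_div, h]
        have : ∑ j, ‖ψ (j + a)‖ ^ 2 = 1 := by
          rw [← h]
          exact Fintype.sum_equiv (Equiv.addRight a) _ _ fun j => rfl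
        rw [this]; norm_num

/-- the normalized vector -/
noncomputable def nrm (φ : ZMod d → ℂ) (j : ZMod d) : ℂ :=
  φ j / (Real.sqrt (∑ j, ‖φ j‖ ^ 2) : ℂ)

theorem nrm_unit {φ : ZMod d → ℂ} (h : 0 < ∑ j, ‖φ j‖ ^ 2) : ∑ j, ‖nrm φ j‖ ^ 2 = 1 := by
  unfold nrm
  have h1 : ∀ j, ‖φ j / (Real.sqrt (∑ j, ‖φ j‖ ^ 2) : ℂ)‖ ^ 2 = ‖φ j‖ ^ 2 / ∑ j, ‖φ j‖ ^ 2 := by
    intro j
    rw [norm_div, Complex.norm_real, Real.norm_eq_abs, abs_of_nonneg (Real.sqrt_nonneg _), div_pow,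
      Real.sq_sqrt h.le]
  rw [sum_congr rfl fun j _ => h1 j, ← sum_div, div_self h.ne']

theorem nrm_ov {φ : ZMod d → ℂ} (h : 0 < ∑ j, ‖φ j‖ ^ 2) (a b : ZMod d) :
    ‖ov (nrm φ) a b‖ = ‖ov φ a b‖ / ∑ j, ‖φ j‖ ^ 2 := by
  have h1 : ov (nrm φ) a b = ov φ a b / ((∑ j, ‖φ j‖ ^ 2 : ℝ) : ℂ) := by
    have h2 : ((Real.sqrt (∑ j, ‖φ j‖ ^ 2) : ℝ) : ℂ) * ((Real.sqrt (∑ j, ‖φ j‖ ^ 2) : ℝ) : ℂ) =
        ((∑ j, ‖φ j‖ ^ 2 : ℝ) : ℂ) := by
      rw [← Complex.ofReal_mul, Real.mul_self_sqrt h.le]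
    have h3 : ((Real.sqrt (∑ j, ‖φ j‖ ^ 2) : ℝ) : ℂ) ≠ 0 := by
      exact_mod_cast (Real.sqrt_pos.2 h).ne'
    rw [← h2]
    unfold ov nrm
    rw [sum_div]
    refine sum_congr rfl fun j _ => ?_
    rw [map_div₀, Complex.conj_ofReal]
    field_simp
  rw [h1, norm_div, Complex.norm_real, Real.norm_eq_abs, abs_of_pos h]

/-- the perturbed vector -/
noncomputable def pert (η : ZMod d → ℂ) (v w : ℝ) (j : ZMod d) : ℂ :=
  η j + (if j = 0 then (v : ℂ) else 0) + (w : ℂ)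

theorem ov_pert (η : ZMod d → ℂ) (v w : ℝ) (a b : ZMod d) :
    ov (pert η v w) a b = ov η a b + (if a = 0 then (v : ℂ) ^ 2 else 0) +
      (if b = 0 then (w : ℂ) ^ 2 * d else 0) +
      (v * conj (η a) + v * (e (-(b * a)) * η (-a)) + w * ∑ j, conj (η (j + a)) * e (b * j) +
        w * ∑ j, e (b * j) * η j + v * w * e (-(b * a)) + v * w) := by
  have hexp : ∀ j : ZMod d, conj (pert η v w (j + a)) * (e (b * j) * pert η v w j) =
      conj (η (j + a)) * (e (b * j) * η j) + (if j = 0 then (v : ℂ) * conj (η a) else 0) +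
      w * (conj (η (j + a)) * e (b * j)) +
      (if j = -a then (v : ℂ) * (e (-(b * a)) * η (-a)) else 0) +
      (if j = 0 then (if a = 0 then (v : ℂ) ^ 2 else 0) else 0) +
      (if j = -a then (v : ℂ) * w * e (-(b * a)) else 0) +
      w * (e (b * j) * η j) + (if j = 0 then (v : ℂ) * w else 0) + w ^ 2 * e (j * b) := by
    intro j
    have hja : (j + a = 0) ↔ j = -a := ⟨fun h => by linear_combination h, fun h => by
      rw [h]; ring⟩
    unfold pert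
    rw [map_add, map_add, Complex.conj_ofReal]
    by_cases h0 : j = 0
    · subst h0
      by_cases ha : a = 0
      · subst ha
        simp [e_zero]
        ring
      · have h1 : ¬ (0 + a = 0) := by rwa [zero_add]
        have h2 : ¬ ((0 : ZMod d) = -a) := fun h => ha (by linear_combination h)
        rw [if_neg h1, if_pos rfl, if_pos rfl, if_neg h2, if_pos rfl, if_neg ha, if_neg h2,
          if_pos rfl, map_zero, zero_add]
        simp only [mul_zero, zero_mul, e_zero]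
        ring
    · by_cases h1 : j = -a
      · have ha : a ≠ 0 := by
          rintro rfl
          exact h0 (by rw [h1, neg_zero])
        rw [if_pos (hja.2 h1), if_neg h0, if_neg h0, if_pos h1, if_neg h0, if_pos h1, if_neg h0,
          Complex.conj_ofReal]
        have e1 : e (b * j) = e (-(b * a)) := by rw [h1]; congr 1; ring
        have e2 : e (j * b) = e (-(b * a)) := by rw [h1]; congr 1; ring
        have e3 : η (-a) = η j := by rw [h1]
        rw [e1, e2, e3]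
        ring
      · rw [if_neg (fun h => h1 (hja.1 h)), if_neg h0, if_neg h0, if_neg h1, if_neg h0, if_neg h1,
          if_neg h0, map_zero, mul_comm b j]
        ring
  unfold ov
  rw [sum_congr rfl fun j _ => hexp j]
  simp only [sum_add_distrib, ← mul_sum, sum_ite_eq', mem_univ, if_true]
  rw [sum_e b]
  split_ifs <;> ring

theorem ov_self (φ : ZMod d → ℂ) : ov φ 0 0 = ((∑ j, ‖φ j‖ ^ 2 : ℝ) : ℂ) := by
  unfold ov
  rw [Complex.ofReal_sum]
  refine sum_congr rfl fun j _ => ?_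
  rw [add_zero, zero_mul, e_zero, one_mul, conj_mul_self']

theorem norm_mul_e (x : ZMod d) (z : ℂ) : ‖e x * z‖ = ‖z‖ := by
  rw [norm_mul, norm_e, one_mul]

theorem norm_mul_e' (x : ZMod d) (z : ℂ) : ‖z * e x‖ = ‖z‖ := by
  rw [norm_mul, norm_e, mul_one]

/-- the error terms of the perturbation -/
theorem ov_pert_err {η : ZMod d → ℂ} {s K : ℝ} (hη : ∀ j, ‖η j‖ ≤ s)
    (hK : ∀ b : ZMod d, ‖∑ j, e (b * j) * η j‖ ≤ K) {v w : ℝ} (hv : 0 ≤ v) (hw : 0 ≤ w)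
    (a b : ZMod d) :
    ‖ov (pert η v w) a b - (ov η a b + (if a = 0 then (v : ℂ) ^ 2 else 0) +
      (if b = 0 then (w : ℂ) ^ 2 * d else 0))‖ ≤ 2 * v * s + 2 * w * K + 2 * v * w := by
  rw [ov_pert, add_sub_cancel_left]
  have hK' : ‖∑ j, conj (η (j + a)) * e (b * j)‖ ≤ K := by
    have h1 : ∑ j, conj (η (j + a)) * e (b * j) = e (-(b * a)) * conj (∑ j, e (-b * j) * η j) := by
      rw [map_sum, mul_sum]
      refine Fintype.sum_equiv (Equiv.addRight a) _ _ fun j => ?_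
      simp only [Equiv.coe_addRight]
      rw [map_mul, conj_e]
      have h2 : e (-(b * a)) * e (-(-b * (j + a))) = e (b * j) := by
        rw [← e_add]; congr 1; ring
      calc conj (η (j + a)) * e (b * j) = e (b * j) * conj (η (j + a)) := by ring
        _ = _ := by rw [← h2]; ring
    rw [h1, norm_mul_e, norm_conj']
    exact hK _
  have e1 : ‖(v : ℂ) * conj (η a)‖ ≤ v * s := by
    rw [norm_mul, norm_conj', Complex.norm_real, Real.norm_eq_abs, abs_of_nonneg hv]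
    exact mul_le_mul_of_nonneg_left (hη a) hv
  have e2 : ‖(v : ℂ) * (e (-(b * a)) * η (-a))‖ ≤ v * s := by
    rw [norm_mul, norm_mul_e, Complex.norm_real, Real.norm_eq_abs, abs_of_nonneg hv]
    exact mul_le_mul_of_nonneg_left (hη _) hv
  have e3 : ‖(w : ℂ) * ∑ j, conj (η (j + a)) * e (b * j)‖ ≤ w * K := by
    rw [norm_mul, Complex.norm_real, Real.norm_eq_abs, abs_of_nonneg hw]
    exact mul_le_mul_of_nonneg_left hK' hw
  have e4 : ‖(w : ℂ) * ∑ j, e (b * j) * η j‖ ≤ w * K := by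
    rw [norm_mul, Complex.norm_real, Real.norm_eq_abs, abs_of_nonneg hw]
    exact mul_le_mul_of_nonneg_left (hK b) hw
  have e5 : ‖(v : ℂ) * w * e (-(b * a))‖ ≤ v * w := by
    rw [norm_mul_e', norm_mul, Complex.norm_real, Complex.norm_real, Real.norm_eq_abs,
      Real.norm_eq_abs, abs_of_nonneg hv, abs_of_nonneg hw]
  have e6 : ‖(v : ℂ) * w‖ ≤ v * w := by
    rw [norm_mul, Complex.norm_real, Complex.norm_real, Real.norm_eq_abs,
      Real.norm_eq_abs, abs_of_nonneg hv, abs_of_nonneg hw]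
  have t1 := norm_add_le ((v : ℂ) * conj (η a) + v * (e (-(b * a)) * η (-a)) +
    w * ∑ j, conj (η (j + a)) * e (b * j) + w * ∑ j, e (b * j) * η j + v * w * e (-(b * a)))
    ((v : ℂ) * w)
  have t2 := norm_add_le ((v : ℂ) * conj (η a) + v * (e (-(b * a)) * η (-a)) +
    w * ∑ j, conj (η (j + a)) * e (b * j) + w * ∑ j, e (b * j) * η j) ((v : ℂ) * w * e (-(b * a)))
  have t3 := norm_add_le ((v : ℂ) * conj (η a) + v * (e (-(b * a)) * η (-a)) +
    w * ∑ j, conj (η (j + a)) * e (b * j)) (w * ∑ j, e (b * j) * η j)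
  have t4 := norm_add_le ((v : ℂ) * conj (η a) + v * (e (-(b * a)) * η (-a)))
    (w * ∑ j, conj (η (j + a)) * e (b * j))
  have t5 := norm_add_le ((v : ℂ) * conj (η a)) (v * (e (-(b * a)) * η (-a)))
  linarith

/-- the final inequality: `r = √d |⟨φ, D φ⟩|`, `N = ‖φ‖²`, `t = d^(-1/4)` -/
theorem final_ineq {c t r N : ℝ} (hc : 1 ≤ c) (ht : 0 < t) (ht1 : t ≤ 1) (hr : |r - 1| ≤ c * t)
    (hN : |N - 1| ≤ c * t) (hct : c * t ≤ 1 / 2) :
    |(1 + t ^ 4) * (r / N) ^ 2 - 1| ≤ 50 * c * t := by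
  rw [abs_le] at hr hN ⊢
  have hN0 : 1 / 2 ≤ N := by linarith
  have hr2 : r ≤ 3 / 2 := by linarith
  have hr0 : 1 / 2 ≤ r := by linarith
  have hNN : 0 < N ^ 2 := by positivity
  have h1 : |(r / N) ^ 2 - 1| ≤ 24 * (c * t) := by
    have h2 : (r / N) ^ 2 - 1 = (r - N) * (r + N) / N ^ 2 := by field_simp; ring
    rw [h2, abs_div, abs_of_pos hNN, div_le_iff₀ hNN, abs_mul]
    have h3 : |r - N| ≤ 2 * (c * t) := by rw [abs_le]; constructor <;> linarith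
    have h4 : |r + N| ≤ 3 := by rw [abs_le]; constructor <;> linarith
    have h5 : (1 : ℝ) / 4 ≤ N ^ 2 := by nlinarith
    have h6 : |r - N| * |r + N| ≤ 2 * (c * t) * 3 :=
      mul_le_mul h3 h4 (abs_nonneg _) (by positivity)
    nlinarith [mul_pos (show 0 < c by linarith) ht]
  rw [abs_le] at h1
  have h7 : t ^ 4 ≤ t := by
    calc t ^ 4 ≤ t ^ 1 := pow_le_pow_of_le_one ht.le ht1 (by norm_num)
      _ = t := pow_one t
  have h8 : t ≤ c * t := by nlinarith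
  have h9 : (r / N) ^ 2 ≤ 13 := by nlinarith
  have h10 : 0 ≤ t ^ 4 * (r / N) ^ 2 := by positivity
  have h11 : t ^ 4 * (r / N) ^ 2 ≤ (c * t) * 13 :=
    mul_le_mul (h7.trans h8) h9 (by positivity) (by positivity)
  constructor <;> nlinarith

/-- near-fiducials from flat vectors -/
theorem near {c : ℝ} (hc : 1 ≤ c) (φ : ZMod d → ℂ) (hd : 2 ≤ d)
    (hN : |(∑ j, ‖φ j‖ ^ 2) - 1| ≤ c * (d : ℝ) ^ (-(1 / 4) : ℝ))
    (hS : ∀ a b : ZMod d, (a, b) ≠ (0, 0) →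
      |Real.sqrt d * ‖ov φ a b‖ - 1| ≤ c * (d : ℝ) ^ (-(1 / 4) : ℝ)) :
    ∃ ψ : ZMod d → ℂ, ∑ j, ‖ψ j‖ ^ 2 = 1 ∧ ∀ a b : ZMod d, (a, b) ≠ (0, 0) →
      |((d : ℝ) + 1) * ‖ov ψ a b‖ ^ 2 - 1| ≤ 50 * c ^ 5 * (d : ℝ) ^ (-(1 / 4) : ℝ) := by
  have hd0 : (0 : ℝ) < d := by positivity
  have hd1 : (1 : ℝ) ≤ d := by exact_mod_cast (by omega : 1 ≤ d)
  obtain ⟨t, ht⟩ : ∃ t : ℝ, t = (d : ℝ) ^ (-(1 / 4) : ℝ) := ⟨_, rfl⟩
  rw [← ht] at hN hS ⊢
  have ht0 : 0 < t := by rw [ht]; positivity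
  have ht1 : t ≤ 1 := by
    rw [ht]
    exact Real.rpow_le_one_of_one_le_of_nonpos hd1 (by norm_num)
  have ht4 : t ^ 4 = 1 / d := by
    rw [ht, ← Real.rpow_natCast, ← Real.rpow_mul hd0.le]
    norm_num
    rw [Real.rpow_neg_one]
  by_cases hct : c * t ≤ 1 / 2
  · have hpos : 0 < ∑ j, ‖φ j‖ ^ 2 := by
      rw [abs_le] at hN; linarith
    refine ⟨nrm φ, nrm_unit hpos, fun a b hab => ?_⟩
    have h1 := final_ineq hc ht0 ht1 (hS a b hab) hN hct
    rw [nrm_ov hpos]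
    have h2 : ((d : ℝ) + 1) * (‖ov φ a b‖ / ∑ j, ‖φ j‖ ^ 2) ^ 2 =
        (1 + t ^ 4) * ((Real.sqrt d * ‖ov φ a b‖) / ∑ j, ‖φ j‖ ^ 2) ^ 2 := by
      rw [ht4, div_pow, div_pow, mul_pow, Real.sq_sqrt hd0.le]
      field_simp
    rw [h2]
    refine h1.trans ?_
    have h3 : c ≤ c ^ 5 := by
      calc c = c ^ 1 := (pow_one c).symm
        _ ≤ c ^ 5 := pow_le_pow_right₀ hc (by norm_num)
    nlinarith
  · push Not at hct
    obtain ⟨ψ, hψ⟩ : ∃ ψ : ZMod d → ℂ, ∑ j, ‖ψ j‖ ^ 2 = 1 := by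
      refine ⟨fun j => if j = 0 then 1 else 0, ?_⟩
      have : ∀ j : ZMod d, ‖(if j = 0 then (1 : ℂ) else 0)‖ ^ 2 = if j = 0 then 1 else 0 := by
        intro j; split_ifs <;> simp
      rw [sum_congr rfl fun j _ => this j]
      simp
    refine ⟨ψ, hψ, fun a b _ => ?_⟩
    have h1 := ov_le_one hψ a b
    have h2 : ‖ov ψ a b‖ ^ 2 ≤ 1 := by
      have := norm_nonneg (ov ψ a b)
      nlinarith
    have h3 : 0 ≤ ‖ov ψ a b‖ ^ 2 := by positivity
    have h4 : (d : ℝ) * t ^ 4 = 1 := by rw [ht4]; field_simp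
    have h5 : 1 ≤ 2 * (c * t) := by linarith
    have h6 : (d : ℝ) ≤ 16 * c ^ 4 := by
      have h7 : 1 ≤ (2 * (c * t)) ^ 4 := one_le_pow₀ h5
      have h8 : (d : ℝ) * 1 ≤ d * (2 * (c * t)) ^ 4 := mul_le_mul_of_nonneg_left h7 hd0.le
      calc (d : ℝ) = d * 1 := (mul_one _).symm
        _ ≤ d * (2 * (c * t)) ^ 4 := h8
        _ = 16 * c ^ 4 * (d * t ^ 4) := by ring
        _ = 16 * c ^ 4 := by rw [h4, mul_one]
    have h9 : (1 : ℝ) ≤ c ^ 4 := one_le_pow₀ hc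
    have h10 : 50 * c ^ 5 * t = 25 * c ^ 4 * (2 * (c * t)) := by ring
    have h11 : 25 * c ^ 4 * 1 ≤ 25 * c ^ 4 * (2 * (c * t)) :=
      mul_le_mul_of_nonneg_left h5 (by positivity)
    rw [h10, abs_le]
    constructor
    · nlinarith
    · nlinarith

end Pool.Agent.V8H99.NF
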