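import Pool.Agent.V8H99.NF.Compl
import Pool.Agent.V8H99.NF.Pert

/-! # Smooth incomplete Gauss sums and flat vectors in every dimension -/

set_option autoImplicit false

namespace Pool.Agent.V8H99.NF

open Finset Complex Pool.Agent.R503.SIC
open scoped ComplexConjugate

/-- the window -/
noncomputable def W (t : ℝ) : ℝ := Real.sin (Real.pi * max 0 (min t 1))

theorem W_abs (t : ℝ) : |W t| ≤ 1 := Real.abs_sin_le_one _

theorem W_zero_of_le {t : ℝ} (h : t ≤ 0) : W t = 0 := by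
  unfold W
  rw [max_eq_left ((min_le_left _ _).trans h), mul_zero, Real.sin_zero]

theorem W_zero_of_ge {t : ℝ} (h : 1 ≤ t) : W t = 0 := by
  unfold W
  rw [min_eq_right h, max_eq_right zero_le_one, mul_one, Real.sin_pi]

theorem W_mid {t : ℝ} (h0 : 0 ≤ t) (h1 : t ≤ 1) : W t = Real.sin (Real.pi * t) := by
  unfold W
  rw [min_eq_left h1, max_eq_right h0]

theorem W_lip (t u : ℝ) : |W t - W u| ≤ Real.pi * |t - u| := by
  unfold W
  have h1 : |Real.sin (Real.pi * max 0 (min t 1)) - Real.sin (Real.pi * max 0 (min u 1))| ≤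
      |Real.pi * max 0 (min t 1) - Real.pi * max 0 (min u 1)| := by
    have := Real.lipschitzWith_sin.dist_le_mul (Real.pi * max 0 (min t 1))
      (Real.pi * max 0 (min u 1))
    rwa [NNReal.coe_one, one_mul, Real.dist_eq, Real.dist_eq] at this
  refine h1.trans ?_
  rw [← mul_sub, abs_mul, abs_of_pos Real.pi_pos]
  refine mul_le_mul_of_nonneg_left ?_ Real.pi_pos.le
  refine (abs_max_sub_max_le_max _ _ _ _).trans ?_
  rw [sub_self, abs_zero]
  refine max_le (abs_nonneg _) ?_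
  refine (abs_min_sub_min_le_max _ _ _ _).trans ?_
  rw [sub_self, abs_zero]
  exact max_le le_rfl (abs_nonneg _)

theorem exp_lip (x y : ℝ) : ‖Complex.exp (Complex.I * (x : ℂ)) - Complex.exp (Complex.I * (y : ℂ))‖ ≤
    |x - y| := by
  have h1 : Complex.exp (Complex.I * (x : ℂ)) - Complex.exp (Complex.I * (y : ℂ)) =
      Complex.exp (Complex.I * (y : ℂ)) * (Complex.exp (Complex.I * ((x - y : ℝ) : ℂ)) - 1) := by
    rw [mul_sub, ← Complex.exp_add, mul_one]
    congr 2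
    push_cast
    ring
  rw [h1, norm_mul]
  have h2 : ‖Complex.exp (Complex.I * (y : ℂ))‖ = 1 := by
    rw [mul_comm]; exact Complex.norm_exp_ofReal_mul_I y
  rw [h2, one_mul]
  exact Real.norm_exp_I_mul_ofReal_sub_one_le

/-- the smooth summand -/
noncomputable def GG (d : ℕ) (s α β φ : ℝ) (t : ℝ) : ℂ :=
  ((W ((t + s) / d - α) * W (t / d - β) : ℝ) : ℂ) * Complex.exp (Complex.I * ((φ * t : ℝ) : ℂ))

theorem GG_norm (d : ℕ) (s α β φ t : ℝ) : ‖GG d s α β φ t‖ ≤ 1 := by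
  unfold GG
  rw [norm_mul, Complex.norm_real, Real.norm_eq_abs, abs_mul, mul_comm Complex.I,
    Complex.norm_exp_ofReal_mul_I, mul_one]
  exact mul_le_one₀ (W_abs _) (abs_nonneg _) (W_abs _)

theorem GG_diff {d : ℕ} (hd : 1 ≤ d) (s α β φ t : ℝ) (hφ : |φ| ≤ 3 / d) :
    ‖GG d s α β φ (t + 1) - GG d s α β φ t‖ ≤ 10 / d := by
  have hd0 : (0 : ℝ) < d := by exact_mod_cast hd
  have h1 := W_lip ((t + 1 + s) / d - α) ((t + s) / d - α)
  have h2 := W_lip ((t + 1) / d - β) (t / d - β)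
  have e1 : (t + 1 + s) / d - α - ((t + s) / d - α) = 1 / d := by ring
  have e2 : (t + 1) / d - β - (t / d - β) = 1 / d := by ring
  rw [e1, abs_of_pos (show (0 : ℝ) < 1 / d by positivity)] at h1
  rw [e2, abs_of_pos (show (0 : ℝ) < 1 / d by positivity)] at h2
  have h3 := exp_lip (φ * (t + 1)) (φ * t)
  have e3 : φ * (t + 1) - φ * t = φ := by ring
  rw [e3] at h3
  unfold GG
  obtain ⟨a, ha⟩ : ∃ a, a = W ((t + 1 + s) / d - α) := ⟨_, rfl⟩
  obtain ⟨a', ha'⟩ : ∃ a, a = W ((t + s) / d - α) := ⟨_, rfl⟩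
  obtain ⟨b, hb⟩ : ∃ a, a = W ((t + 1) / d - β) := ⟨_, rfl⟩
  obtain ⟨b', hb'⟩ : ∃ a, a = W (t / d - β) := ⟨_, rfl⟩
  obtain ⟨x, hx⟩ : ∃ x, x = Complex.exp (Complex.I * ((φ * (t + 1) : ℝ) : ℂ)) := ⟨_, rfl⟩
  obtain ⟨y, hy⟩ : ∃ x, x = Complex.exp (Complex.I * ((φ * t : ℝ) : ℂ)) := ⟨_, rfl⟩
  have hx1 : ‖x‖ = 1 := by rw [hx, mul_comm Complex.I, Complex.norm_exp_ofReal_mul_I]
  have ha1 : |a'| ≤ 1 := by rw [ha']; exact W_abs _
  have hb1 : |b| ≤ 1 := by rw [hb]; exact W_abs _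
  have hb1' : |b'| ≤ 1 := by rw [hb']; exact W_abs _
  rw [← ha, ← ha', ← hb, ← hb', ← hx, ← hy]
  rw [← ha, ← ha'] at h1
  rw [← hb, ← hb'] at h2
  rw [← hx, ← hy] at h3
  have hid : ((a * b : ℝ) : ℂ) * x - ((a' * b' : ℝ) : ℂ) * y =
      (((a - a') * b : ℝ) : ℂ) * x + ((a' * (b - b') : ℝ) : ℂ) * x +
        ((a' * b' : ℝ) : ℂ) * (x - y) := by
    push_cast; ring
  rw [hid]
  have n1 : ‖(((a - a') * b : ℝ) : ℂ) * x‖ ≤ Real.pi * (1 / d) := by
    rw [norm_mul, hx1, mul_one, Complex.norm_real, Real.norm_eq_abs, abs_mul]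
    calc |a - a'| * |b| ≤ |a - a'| * 1 := mul_le_mul_of_nonneg_left hb1 (abs_nonneg _)
      _ ≤ _ := by rw [mul_one]; exact h1
  have n2 : ‖((a' * (b - b') : ℝ) : ℂ) * x‖ ≤ Real.pi * (1 / d) := by
    rw [norm_mul, hx1, mul_one, Complex.norm_real, Real.norm_eq_abs, abs_mul]
    calc |a'| * |b - b'| ≤ 1 * |b - b'| := mul_le_mul_of_nonneg_right ha1 (abs_nonneg _)
      _ ≤ _ := by rw [one_mul]; exact h2
  have n3 : ‖((a' * b' : ℝ) : ℂ) * (x - y)‖ ≤ 3 / d := by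
    rw [norm_mul, Complex.norm_real, Real.norm_eq_abs, abs_mul]
    calc |a'| * |b'| * ‖x - y‖ ≤ 1 * ‖x - y‖ :=
          mul_le_mul_of_nonneg_right (mul_le_one₀ ha1 (abs_nonneg _) hb1') (norm_nonneg _)
      _ ≤ _ := by rw [one_mul]; exact h3.trans hφ
  have hpi : Real.pi < 3.15 := Real.pi_lt_d2
  have n4 := norm_add₃_le (a := (((a - a') * b : ℝ) : ℂ) * x) (b := ((a' * (b - b') : ℝ) : ℂ) * x)
    (c := ((a' * b' : ℝ) : ℂ) * (x - y))
  have h9 : Real.pi * (1 / d) + Real.pi * (1 / d) + 3 / d ≤ 10 / d := by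
    have : Real.pi * (1 / d) + Real.pi * (1 / d) + 3 / d = (2 * Real.pi + 3) / d := by ring
    rw [this]
    apply div_le_div_of_nonneg_right _ hd0.le
    linarith
  linarith

variable {d P : ℕ} [NeZero P]

/-- **Smooth incomplete Gauss sums are `O(√P)`, uniformly.** -/
theorem piece (hd : 1 ≤ d) (hP : P.Prime) (hP1 : 16 * d < P) (hP2 : P ≤ 32 * d) {A : ZMod P}
    (hA : A ≠ 0) (B : ZMod P) (s α β : ℝ) (hβ : 0 ≤ β) (hβ1 : β ≤ 1) (ρ : ℝ) :
    ‖∑ n ∈ range (2 * d), ((W (((n : ℝ) + s) / d - α) * W ((n : ℝ) / d - β) : ℝ) : ℂ) *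
      (e (A * (n : ZMod P) ^ 2 + B * (n : ZMod P)) *
        Complex.exp (Complex.I * ((2 * Real.pi * ρ * n : ℝ) : ℂ)))‖ ≤ 47 * Real.sqrt P := by
  classical
  have hd0 : (0 : ℝ) < d := by exact_mod_cast hd
  have hP0 : (0 : ℝ) < P := by exact_mod_cast hP.pos
  have hP16 : 16 * (d : ℝ) < P := by exact_mod_cast hP1
  have hP32 : (P : ℝ) ≤ 32 * d := by exact_mod_cast hP2
  obtain ⟨h0, hh0⟩ : ∃ h0 : ℤ, h0 = round (ρ * P) := ⟨_, rfl⟩
  obtain ⟨θ, hθ⟩ : ∃ θ : ℝ, θ = ρ * P - h0 := ⟨_, rfl⟩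
  have hθ1 : |θ| ≤ 1 / 2 := by rw [hθ, hh0]; exact abs_sub_round _
  obtain ⟨φ, hφd⟩ : ∃ φ : ℝ, φ = 2 * Real.pi * θ / P := ⟨_, rfl⟩
  have hφ : |φ| ≤ 3 / d := by
    rw [hφd, abs_div, abs_mul, abs_mul, abs_of_pos Real.pi_pos, abs_of_pos hP0,
      abs_of_pos (by norm_num : (0 : ℝ) < 2), div_le_div_iff₀ hP0 hd0]
    have hpi : Real.pi < 3.15 := Real.pi_lt_d2
    have h1 : 2 * Real.pi * |θ| ≤ 2 * 3.15 * (1 / 2) := by
      apply mul_le_mul (by linarith) hθ1 (abs_nonneg _) (by norm_num)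
    nlinarith
  obtain ⟨f, hf⟩ : ∃ f : ZMod P → ℂ, f = fun x => GG d s α β φ x.val := ⟨_, rfl⟩
  have hfx : ∀ x, f x = GG d s α β φ x.val := fun x => by rw [hf]
  -- the sum as a sum over `ZMod P`
  have hGz : ∀ t : ℝ, 2 * d ≤ t → GG d s α β φ t = 0 := by
    intro t ht
    unfold GG
    have : W (t / d - β) = 0 := by
      apply W_zero_of_ge
      have : 2 ≤ t / d := by rw [le_div_iff₀ hd0]; exact ht
      linarith
    rw [this, mul_zero, Complex.ofReal_zero, zero_mul]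
  have hG0 : GG d s α β φ 0 = 0 := by
    unfold GG
    have : W (0 / d - β) = 0 := by
      apply W_zero_of_le
      rw [zero_div]; linarith
    rw [this, mul_zero, Complex.ofReal_zero, zero_mul]
  have hterm : ∀ n : ℕ, ((W (((n : ℝ) + s) / d - α) * W ((n : ℝ) / d - β) : ℝ) : ℂ) *
      (e (A * (n : ZMod P) ^ 2 + B * (n : ZMod P)) *
        Complex.exp (Complex.I * ((2 * Real.pi * ρ * n : ℝ) : ℂ))) =
      GG d s α β φ n * e (A * (n : ZMod P) ^ 2 + (B + (h0 : ZMod P)) * (n : ZMod P)) := by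
    intro n
    have h1 : e (A * (n : ZMod P) ^ 2 + (B + (h0 : ZMod P)) * (n : ZMod P)) =
        e (A * (n : ZMod P) ^ 2 + B * (n : ZMod P)) * e (((h0 * (n : ℤ) : ℤ) : ZMod P)) := by
      rw [← e_add]; congr 1; push_cast; ring
    have h2 : e (((h0 * (n : ℤ) : ℤ) : ZMod P)) =
        Complex.exp (Complex.I * ((2 * Real.pi * (h0 * n) / P : ℝ) : ℂ)) := by
      unfold e
      rw [ZMod.stdAddChar_coe]
      congr 1
      push_cast
      ring
    have h3 : Complex.exp (Complex.I * ((2 * Real.pi * ρ * n : ℝ) : ℂ)) =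
        Complex.exp (Complex.I * ((φ * n : ℝ) : ℂ)) *
          Complex.exp (Complex.I * ((2 * Real.pi * (h0 * n) / P : ℝ) : ℂ)) := by
      rw [← Complex.exp_add, ← mul_add, ← Complex.ofReal_add]
      congr 3
      rw [hφd, hθ]
      field_simp
      ring
    rw [h1, h2, h3]
    unfold GG
    ring
  have hsum : ∑ n ∈ range (2 * d), ((W (((n : ℝ) + s) / d - α) * W ((n : ℝ) / d - β) : ℝ) : ℂ) *
      (e (A * (n : ZMod P) ^ 2 + B * (n : ZMod P)) *
        Complex.exp (Complex.I * ((2 * Real.pi * ρ * n : ℝ) : ℂ))) =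
      ∑ x : ZMod P, f x * e (A * x ^ 2 + (B + (h0 : ZMod P)) * x) := by
    rw [sum_congr rfl fun n _ => hterm n]
    have h1 : ∑ n ∈ range (2 * d), GG d s α β φ n * e (A * (n : ZMod P) ^ 2 + (B + (h0 : ZMod P)) * (n : ZMod P)) =
        ∑ n ∈ range P, GG d s α β φ n * e (A * (n : ZMod P) ^ 2 + (B + (h0 : ZMod P)) * (n : ZMod P)) := by
      apply sum_subset (range_subset_range.2 (by omega))
      intro n _ hn
      rw [mem_range, not_lt] at hn
      rw [hGz n (by exact_mod_cast hn), zero_mul]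
    rw [h1]
    symm
    refine sum_bij (fun x _ => x.val) ?_ ?_ ?_ ?_
    · intro x _; exact mem_range.2 (ZMod.val_lt x)
    · intro x _ y _ h; exact ZMod.val_injective P h
    · intro n hn
      exact ⟨(n : ZMod P), mem_univ _, ZMod.val_natCast_of_lt (mem_range.1 hn)⟩
    · intro x _
      rw [hfx, ZMod.natCast_zmod_val]
  rw [hsum]
  refine (compl hP (by omega) hA _ f).trans ?_
  -- the `ℓ²` norms
  have hcard : (univ.filter fun x : ZMod P => x.val < 2 * d).card ≤ 2 * d := by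
    calc (univ.filter fun x : ZMod P => x.val < 2 * d).card
        = ((univ.filter fun x : ZMod P => x.val < 2 * d).image ZMod.val).card :=
          (card_image_of_injective _ (ZMod.val_injective P)).symm
      _ ≤ (range (2 * d)).card := card_le_card (by
          intro n hn
          rw [mem_image] at hn
          obtain ⟨x, hx, rfl⟩ := hn
          exact mem_range.2 (mem_filter.1 hx).2)
      _ = 2 * d := card_range _
  have hcard' : ((univ.filter fun x : ZMod P => x.val < 2 * d).card : ℝ) ≤ 2 * d := by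
    exact_mod_cast hcard
  have hzero : ∀ x : ZMod P, 2 * d ≤ x.val → f x = 0 := by
    intro x hx
    rw [hfx]
    exact hGz _ (by exact_mod_cast hx)
  have hf1 : ∑ x, ‖f x‖ ^ 2 ≤ 2 * d := by
    rw [← sum_filter_add_sum_filter_not univ (fun x : ZMod P => x.val < 2 * d)]
    have h1 : ∑ x ∈ univ.filter (fun x : ZMod P => ¬ x.val < 2 * d), ‖f x‖ ^ 2 = 0 := by
      refine sum_eq_zero fun x hx => ?_
      rw [hzero x (not_lt.1 (mem_filter.1 hx).2), norm_zero]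
      norm_num
    rw [h1, add_zero]
    refine (sum_le_card_nsmul _ _ 1 fun x _ => ?_).trans ?_
    · have := GG_norm d s α β φ x.val
      rw [← hfx] at this
      have h2 := norm_nonneg (f x)
      nlinarith
    · rw [nsmul_eq_mul, mul_one]; exact hcard'
  have hf2 : ∑ x, ‖f (x + 1) - f x‖ ^ 2 ≤ 2 * d * (10 / d) ^ 2 := by
    rw [← sum_filter_add_sum_filter_not univ (fun x : ZMod P => x.val < 2 * d)]
    have hone : (1 : ZMod P).val = 1 := by
      rw [ZMod.val_one_eq_one_mod, Nat.mod_eq_of_lt (by omega)]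
    have h1 : ∑ x ∈ univ.filter (fun x : ZMod P => ¬ x.val < 2 * d), ‖f (x + 1) - f x‖ ^ 2 = 0 := by
      refine sum_eq_zero fun x hx => ?_
      have hx' := not_lt.1 (mem_filter.1 hx).2
      have h2 : f (x + 1) = 0 := by
        rw [hfx, ZMod.val_add, hone]
        by_cases h3 : x.val + 1 < P
        · rw [Nat.mod_eq_of_lt h3]
          exact hGz _ (by
            have : ((2 * d : ℕ) : ℝ) ≤ ((x.val + 1 : ℕ) : ℝ) := by exact_mod_cast (by omega)
            push_cast at this ⊢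
            exact this)
        · have h4 : x.val + 1 = P := by
            have := ZMod.val_lt x
            omega
          rw [h4, Nat.mod_self, Nat.cast_zero]
          exact hG0
      rw [h2, hzero x hx', sub_self, norm_zero]
      norm_num
    rw [h1, add_zero]
    refine (sum_le_card_nsmul _ _ ((10 / (d : ℝ)) ^ 2) fun x hx => ?_).trans ?_
    · have hx' := (mem_filter.1 hx).2
      have h3 : (x + 1).val = x.val + 1 := by
        rw [ZMod.val_add, hone, Nat.mod_eq_of_lt (by omega)]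
      have h4 := GG_diff hd s α β φ x.val hφ
      rw [hfx, hfx, h3]
      push_cast
      exact pow_le_pow_left₀ (norm_nonneg _) h4 2
    · rw [nsmul_eq_mul]
      exact mul_le_mul_of_nonneg_right hcard' (by positivity)
  have hsob := sobolev f (1 / (d : ℝ) ^ 2) (by positivity)
  have hS : (∑ h, ‖ft f h‖) ^ 2 ≤ (47 * P) ^ 2 := by
    refine hsob.trans ?_
    have h1 : 1 / (d : ℝ) ^ 2 * ∑ x, ‖f x‖ ^ 2 + ∑ x, ‖f (x + 1) - f x‖ ^ 2 ≤ 202 / d := by
      have h2 : 1 / (d : ℝ) ^ 2 * ∑ x, ‖f x‖ ^ 2 ≤ 1 / (d : ℝ) ^ 2 * (2 * d) :=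
        mul_le_mul_of_nonneg_left hf1 (by positivity)
      have h3 : 1 / (d : ℝ) ^ 2 * (2 * d) + 2 * d * (10 / d) ^ 2 = 202 / d := by
        field_simp
        norm_num
      linarith
    have h4 : 1 / (1 / (d : ℝ) ^ 2) + (P : ℝ) ^ 2 / 4 ≤ 65 / 256 * (P : ℝ) ^ 2 := by
      rw [one_div_one_div]
      nlinarith
    have h5 : (P : ℝ) * (202 / d) ≤ 202 * 32 := by
      rw [mul_div_assoc', div_le_iff₀ hd0]
      nlinarith
    have h6 : (P : ℝ) * (1 / (d : ℝ) ^ 2 * ∑ x, ‖f x‖ ^ 2 + ∑ x, ‖f (x + 1) - f x‖ ^ 2) ≤ 202 * 32 :=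
      (mul_le_mul_of_nonneg_left h1 hP0.le).trans h5
    have h7 : (1 / (1 / (d : ℝ) ^ 2) + (P : ℝ) ^ 2 / 4) *
        ((P : ℝ) * (1 / (d : ℝ) ^ 2 * ∑ x, ‖f x‖ ^ 2 + ∑ x, ‖f (x + 1) - f x‖ ^ 2)) ≤
        65 / 256 * (P : ℝ) ^ 2 * (202 * 32) :=
      mul_le_mul h4 h6 (by positivity) (by positivity)
    refine h7.trans ?_
    nlinarith [sq_nonneg (P : ℝ)]
  have hS' : ∑ h, ‖ft f h‖ ≤ 47 * P :=
    (sq_le_sq₀ (sum_nonneg fun _ _ => norm_nonneg _) (by positivity)).1 hS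
  have hsq : 0 < Real.sqrt P := Real.sqrt_pos.2 hP0
  rw [div_le_iff₀ hsq, mul_assoc, Real.mul_self_sqrt hP0.le]
  exact hS'

end Pool.Agent.V8H99.NF
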